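import Pool.Agent.N842.TX.Loc
import Pool.Agent.N842.HS.Srf2

/-!
# Pencils of plane curves
-/

set_option autoImplicit false

namespace Pool.Agent.N842.TX

open Finset NumberField IsDedekindDomain
open Pool.Agent.N842.HS (nuz one_le_sq sq_mul Res rho card_Res res_iso hv absNorm_hv)

/-- the exponents -/
abbrev Exp3 (d E : ℕ) : Type := {α : Fin 3 → ℕ // α 0 + α 1 < d ∧ α 2 ≤ E}

/-- the number of the roots of `G` -/
noncomputable def ni (G : Polynomial ℤ) (κ : Type) [Field κ] : ℕ := Nat.card {r : κ // G.eval₂ (Int.castRingHom κ) r = 0}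

section
variable {D d E : ℕ} (e : Fin D ≃ Exp3 d E) (G : Polynomial ℤ)

lemma full_exp {h : ℕ} (hd : h ≤ d) (hE : h ≤ E + 1) : Full (fun k => (e k).1) h where
  inj := fun k k' hk => e.injective (Subtype.ext hk)
  full := by
    intro α hα
    rw [Fin.sum_univ_three] at hα
    refine ⟨e.symm ⟨α, by omega, by omega⟩, ?_⟩
    show (e (e.symm ⟨α, _⟩)).1 = α
    rw [Equiv.apply_symm_apply]

/-- the values of the polynomials -/
def val (κ : Type) [Field κ] (u : Fin D → κ) (x z t : κ) : κ :=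
  ∑ j ∈ range (d + 1), (G.coeff j : κ) * (x ^ (d - j) * z ^ j) + ∑ k, u k * (x ^ (e k).1 0 * z ^ (e k).1 1 * t ^ (e k).1 2)

/-- the number of the points of the fibres -/
noncomputable def fib (κ : Type) [Field κ] (u : Fin D → κ) (t : κ) : ℕ :=
  Nat.card {P : κ × κ // val e G κ u P.1 P.2 t = 0} + ni G κ

/-- the averages over the fibres -/
noncomputable def avg (κ : Type) [Field κ] (u : Fin D → κ) : ℝ :=
  (∑ᶠ t : κ, ((Nat.card κ : ℝ) + 1 - fib e G κ u t)) / Nat.card κ

lemma val_congr {κ κ' : Type} [Field κ] [Field κ'] (σ : κ ≃+* κ') (u : Fin D → κ) (x z t : κ) :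
    val e G κ' (fun k => σ (u k)) (σ x) (σ z) (σ t) = σ (val e G κ u x z t) := by
  unfold val
  simp only [map_add, map_sum, map_mul, map_pow, map_intCast]

lemma ni_congr {κ κ' : Type} [Field κ] [Field κ'] (σ : κ ≃+* κ') : ni G κ' = ni G κ := by
  unfold ni
  symm
  refine Nat.card_congr (Equiv.subtypeEquiv σ.toEquiv fun r => ?_)
  show G.eval₂ (Int.castRingHom κ) r = 0 ↔ G.eval₂ (Int.castRingHom κ') (σ r) = 0
  have h1 : G.eval₂ (Int.castRingHom κ') (σ r) = σ (G.eval₂ (Int.castRingHom κ) r) := by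
    have h2 := Polynomial.hom_eval₂ G (Int.castRingHom κ) (σ : κ →+* κ') r
    have h3 : (σ : κ →+* κ').comp (Int.castRingHom κ) = Int.castRingHom κ' := RingHom.ext_int _ _
    rw [h3] at h2
    exact h2.symm
  rw [h1, map_eq_zero_iff _ σ.injective]

lemma fib_congr {κ κ' : Type} [Field κ] [Field κ'] (σ : κ ≃+* κ') (u : Fin D → κ) (t : κ) :
    fib e G κ' (fun k => σ (u k)) (σ t) = fib e G κ u t := by
  unfold fib
  rw [ni_congr G σ]
  congr 1
  symm
  refine Nat.card_congr (Equiv.subtypeEquiv (Equiv.prodCongr σ.toEquiv σ.toEquiv) fun P => ?_)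
  show val e G κ u P.1 P.2 t = 0 ↔ val e G κ' (fun k => σ (u k)) (σ P.1) (σ P.2) (σ t) = 0
  rw [val_congr, map_eq_zero_iff _ σ.injective]

lemma avg_congr {κ κ' : Type} [Field κ] [Field κ'] (σ : κ ≃+* κ') (u : Fin D → κ) :
    avg e G κ' (fun k => σ (u k)) = avg e G κ u := by
  unfold avg
  have h3 : Nat.card κ' = Nat.card κ := (Nat.card_congr σ.toEquiv).symm
  rw [h3]
  congr 1
  refine (finsum_eq_of_bijective σ σ.bijective fun t => ?_).symm
  rw [fib_congr]

variable (d) in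
/-- the fixed part -/
def gp (p : ℕ) (x : Fin 3 → ZMod p) : ZMod p := ∑ j ∈ range (d + 1), (G.coeff j : ZMod p) * (x 0 ^ (d - j) * x 1 ^ j)

/-- the triples -/
def trip (κ : Type) : κ × (κ × κ) ≃ (Fin 3 → κ) where
  toFun q := ![q.2.1, q.2.2, q.1]
  invFun y := (y 2, (y 0, y 1))
  left_inv q := rfl
  right_inv y := by
    funext i
    fin_cases i <;> rfl

lemma avg_zmod (p : ℕ) [hp : Fact p.Prime] (u : Fin D → ZMod p) :
    avg e G (ZMod p) u = 1 - ni G (ZMod p) - nb (fun k => (e k).1) p (gp d G p) u := by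
  classical
  have hp0 : (0 : ℝ) < p := by exact_mod_cast hp.out.pos
  have hs1 := one_le_sq p
  have hs0 : 0 < Real.sqrt p := by linarith
  have h2 : Real.sqrt p ^ 2 = p := by rw [sq, sq_mul p]
  -- the number of the points
  obtain ⟨Z, hZ⟩ : ∃ Z : ℝ, Z = ∑ y : Fin 3 → ZMod p, (if gp d G p y + lo (fun k => (e k).1) u y = 0 then (1 : ℝ) else 0) := ⟨_, rfl⟩
  have e1 : ∑ t : ZMod p, (Nat.card {P : ZMod p × ZMod p // val e G (ZMod p) u P.1 P.2 t = 0} : ℝ) = Z := by
    rw [hZ, ← Fintype.sum_equiv (trip (ZMod p)) (fun q => if gp d G p (trip (ZMod p) q) + lo (fun k => (e k).1) u (trip (ZMod p) q) = 0 then (1 : ℝ) else 0) _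
      (fun q => rfl), Fintype.sum_prod_type]
    refine sum_congr rfl fun t _ => ?_
    rw [Nat.card_eq_fintype_card, Fintype.card_subtype, card_filter]
    push_cast
    refine sum_congr rfl fun P _ => ?_
    have e2 : gp d G p (trip (ZMod p) (t, P)) + lo (fun k => (e k).1) u (trip (ZMod p) (t, P)) = val e G (ZMod p) u P.1 P.2 t := by
      unfold gp lo val
      congr 1
      refine sum_congr rfl fun k _ => ?_
      rw [Fin.prod_univ_three]
      rfl
    rw [e2]
  have e3 : ∑ x : Fin 3 → ZMod p, nuz p (gp d G p x + lo (fun k => (e k).1) u x) = Real.sqrt p * (Z - (p : ℝ) ^ 2) := by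
    unfold nuz
    rw [← mul_sum, sum_sub_distrib, ← hZ, sum_const, card_univ, Fintype.card_fun, Fintype.card_fin, ZMod.card, nsmul_eq_mul]
    congr 2
    push_cast
    field_simp
  unfold nb
  rw [e3]
  have e4 : Real.sqrt p ^ 3 = p * Real.sqrt p := by rw [pow_succ, h2]
  have e5 : Real.sqrt p * (Z - (p : ℝ) ^ 2) / Real.sqrt p ^ 3 = Z / p - p := by
    rw [e4]
    field_simp
  rw [e5]
  unfold avg fib
  rw [finsum_eq_sum_of_fintype, Nat.card_eq_fintype_card (α := ZMod p), ZMod.card]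
  have e6 : ∑ t : ZMod p, ((p : ℝ) + 1 - ((Nat.card {P : ZMod p × ZMod p // val e G (ZMod p) u P.1 P.2 t = 0} + ni G (ZMod p) : ℕ) : ℝ)) =
      p * (p + 1) - Z - p * ni G (ZMod p) := by
    have e7 : ∀ t : ZMod p, ((p : ℝ) + 1 - ((Nat.card {P : ZMod p × ZMod p // val e G (ZMod p) u P.1 P.2 t = 0} + ni G (ZMod p) : ℕ) : ℝ)) =
        ((p : ℝ) + 1 - ni G (ZMod p)) - Nat.card {P : ZMod p × ZMod p // val e G (ZMod p) u P.1 P.2 t = 0} := by
      intro t
      push_cast
      ring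
    rw [sum_congr rfl (fun t _ => e7 t), sum_sub_distrib, e1, sum_const, card_univ, ZMod.card, nsmul_eq_mul]
    ring
  rw [e6]
  field_simp
  ring

end

end Pool.Agent.N842.TX
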