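import Pool.Agent.N842.HS.Srf2
import Pool.Agent.H484R2.Pit

/-!
# The prime ideal theorem in the form used
-/

set_option autoImplicit false

namespace Pool.Agent.N842.TX

open Finset NumberField IsDedekindDomain Filter Topology
open Pool.Agent.N842.HS (hv absNorm_hv VT mem_VT card_high sum_deg1 hom_finite)

section
variable (K : Type) [Field K] [NumberField K]

lemma cnt (T k : ℕ) : k < Nat.primeCounting T ↔ Nat.nth Nat.Prime k ≤ T := by
  unfold Nat.primeCounting Nat.primeCounting'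
  constructor
  · intro h
    exact Nat.lt_succ_iff.1 (Nat.nth_lt_of_lt_count h)
  · intro h
    by_contra hcon
    push Not at hcon
    have h2 : T + 1 ≤ Nat.nth Nat.Prime k := by
      by_contra h3
      push Not at h3
      have h4 : Nat.count Nat.Prime (Nat.nth Nat.Prime k) < Nat.count Nat.Prime (T + 1) :=
        Nat.count_strict_mono (Nat.prime_nth_prime k) h3
      have h5 : Nat.count Nat.Prime (Nat.nth Nat.Prime k) = k := Nat.primeCounting'_nth_eq k
      omega
    omega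

lemma TT_eq (T : ℕ) : ∑ v ∈ (VT K T).filter (fun v => (Ideal.absNorm v.asIdeal).Prime), Real.log (Ideal.absNorm v.asIdeal) = H332.PIT.TT K T := by
  classical
  rw [sum_deg1]
  unfold H332.PIT.TT
  refine sum_bij (fun k _ => Nat.nth Nat.Prime k) ?_ ?_ ?_ ?_
  · intro k hk
    rw [mem_range, cnt] at hk
    rw [mem_filter, mem_range]
    exact ⟨by omega, Nat.prime_nth_prime _⟩
  · intro k _ k' _ h
    exact Nat.nth_injective Nat.infinite_setOfPred_prime h
  · intro p hp
    rw [mem_filter, mem_range] at hp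
    refine ⟨Nat.count Nat.Prime p, ?_, Nat.nth_count hp.2⟩
    rw [mem_range, cnt, Nat.nth_count hp.2]
    omega
  · intro k _
    have hfin : Finite ((e : Fin 1) → (𝓞 K →+* ZMod (Nat.nth Nat.Prime (k + e)))) := by
      have : ∀ e : Fin 1, Finite (𝓞 K →+* ZMod (Nat.nth Nat.Prime (k + e))) := fun e => hom_finite (𝓞 K) _
      exact Pi.finite
    have hft : Fintype ((e : Fin 1) → (𝓞 K →+* ZMod (Nat.nth Nat.Prime (k + e)))) := Fintype.ofFinite _
    rw [finsum_eq_sum_of_fintype]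
    have h1 : ∀ φ ∈ (univ : Finset ((e : Fin 1) → (𝓞 K →+* ZMod (Nat.nth Nat.Prime (k + e))))),
        Real.log (Ideal.absNorm (hv (φ 0)).asIdeal) = Real.log (Nat.nth Nat.Prime k) := by
      intro φ _
      rw [absNorm_hv]
      rfl
    rw [sum_congr rfl h1, sum_const, nsmul_eq_mul, card_univ, ← Nat.card_eq_fintype_card]
    congr 2
    exact Nat.card_congr (Equiv.piUnique (fun e : Fin 1 => 𝓞 K →+* ZMod (Nat.nth Nat.Prime (k + (e : ℕ)))))

lemma high_le (T : ℕ) (hT : 1 ≤ T) : 0 ≤ ∑ v ∈ (VT K T).filter (fun v => ¬ (Ideal.absNorm v.asIdeal).Prime), Real.log (Ideal.absNorm v.asIdeal) ∧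
    ∑ v ∈ (VT K T).filter (fun v => ¬ (Ideal.absNorm v.asIdeal).Prime), Real.log (Ideal.absNorm v.asIdeal) ≤
      (Module.finrank ℤ (𝓞 K) : ℝ) * (Real.sqrt T * Real.log T) := by
  have hT1 : (1 : ℝ) ≤ T := by exact_mod_cast hT
  have hnorm : ∀ v : HeightOneSpectrum (𝓞 K), (1 : ℝ) ≤ Ideal.absNorm v.asIdeal := by
    intro v
    have : Ideal.absNorm v.asIdeal ≠ 0 := by
      rw [Ne, Ideal.absNorm_eq_zero_iff]
      exact v.ne_bot
    exact_mod_cast Nat.one_le_iff_ne_zero.2 this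
  refine ⟨sum_nonneg fun v _ => Real.log_nonneg (hnorm v), ?_⟩
  refine (sum_le_sum (g := fun _ => Real.log T) fun v hv1 => ?_).trans ?_
  · rw [mem_filter, mem_VT] at hv1
    exact Real.log_le_log (by linarith [hnorm v]) (by exact_mod_cast hv1.1)
  · rw [sum_const, nsmul_eq_mul]
    have e1 := card_high K T
    have e2 : (((VT K T).filter (fun v => ¬ (Ideal.absNorm v.asIdeal).Prime)).card : ℝ) ≤ (Module.finrank ℤ (𝓞 K) : ℝ) * Real.sqrt T := by
      have e3 : (((VT K T).filter (fun v => ¬ (Ideal.absNorm v.asIdeal).Prime)).card : ℝ) ≤ (Module.finrank ℤ (𝓞 K) : ℝ) * (Nat.sqrt T : ℝ) := by exact_mod_cast e1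
      refine e3.trans ?_
      apply mul_le_mul_of_nonneg_left _ (Nat.cast_nonneg _)
      exact Real.nat_sqrt_le_real_sqrt
    rw [← mul_assoc]
    exact mul_le_mul_of_nonneg_right e2 (Real.log_nonneg hT1)

lemma high_tendsto : Tendsto (fun T : ℕ => (∑ v ∈ (VT K T).filter (fun v => ¬ (Ideal.absNorm v.asIdeal).Prime), Real.log (Ideal.absNorm v.asIdeal)) / T) atTop (𝓝 0) := by
  have e1 : Tendsto (fun x : ℝ => (Module.finrank ℤ (𝓞 K) : ℝ) * (Real.log x / x ^ (1 / 2 : ℝ))) atTop (𝓝 0) := by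
    have := (isLittleO_log_rpow_atTop (show (0 : ℝ) < 1 / 2 by norm_num)).tendsto_div_nhds_zero.const_mul (Module.finrank ℤ (𝓞 K) : ℝ)
    rwa [mul_zero] at this
  have e2 := e1.comp (tendsto_natCast_atTop_atTop (R := ℝ))
  refine squeeze_zero' ?_ ?_ e2
  · filter_upwards [eventually_ge_atTop 1] with T hT
    exact div_nonneg (high_le K T hT).1 (Nat.cast_nonneg _)
  · filter_upwards [eventually_ge_atTop 1] with T hT
    have hT0 : (0 : ℝ) < T := by exact_mod_cast hT
    simp only [Function.comp]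
    rw [div_le_iff₀ hT0]
    refine (high_le K T hT).2.trans (le_of_eq ?_)
    have e3 : (T : ℝ) = (T : ℝ) ^ (1 / 2 : ℝ) * (T : ℝ) ^ (1 / 2 : ℝ) := by
      rw [← Real.rpow_add hT0]
      norm_num
    rw [Real.sqrt_eq_rpow]
    have e4 : 0 < (T : ℝ) ^ (1 / 2 : ℝ) := by positivity
    calc (Module.finrank ℤ (𝓞 K) : ℝ) * ((T : ℝ) ^ (1 / 2 : ℝ) * Real.log T) =
        (Module.finrank ℤ (𝓞 K) : ℝ) * (Real.log T / (T : ℝ) ^ (1 / 2 : ℝ)) * ((T : ℝ) ^ (1 / 2 : ℝ) * (T : ℝ) ^ (1 / 2 : ℝ)) := by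
          field_simp
      _ = _ := by rw [← e3]

/-- **The prime ideal theorem.** -/
theorem pit_tendsto : Tendsto (fun T : ℕ => (∑ v ∈ VT K T, Real.log (Ideal.absNorm v.asIdeal)) / T) atTop (𝓝 1) := by
  have h1 : Tendsto (fun T : ℕ => H332.PIT.TT K T / T) atTop (𝓝 1) := H332.PIT.TT_tendsto (Pool.Agent.H484R2.continuation K)
  have h3 := h1.add (high_tendsto K)
  rw [add_zero] at h3
  refine h3.congr fun T => ?_
  rw [← add_div, ← TT_eq, sum_filter_add_sum_filter_not]

end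

end Pool.Agent.N842.TX
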