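import Pool.Agent.N842.TX.Ext
import Pool.Agent.N842.TX.Pit
import Pool.Agent.N842.TX.Geo

/-!
# The numbers of the roots of polynomials modulo prime ideals
-/

set_option autoImplicit false

namespace Pool.Agent.N842.TX

open Finset NumberField Polynomial Filter Topology IsDedekindDomain UniqueFactorizationMonoid
open Pool.Agent.N842.HS (Res rho card_Res res_iso hv absNorm_hv VT mem_VT card_high sum_deg1 hom_finite hv_surj)

lemma ev_congr {a b : ℕ → ℝ} {B : ℕ} (h : ∀ p, p.Prime → B < p → a p = b p) {l : ℝ}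
    (ha : Tendsto (fun T : ℕ => (∑ p ∈ (range (T + 1)).filter Nat.Prime, a p) / T) atTop (𝓝 l)) :
    Tendsto (fun T : ℕ => (∑ p ∈ (range (T + 1)).filter Nat.Prime, b p) / T) atTop (𝓝 l) := by
  obtain ⟨c, hc⟩ : ∃ c : ℝ, c = ∑ p ∈ (range (B + 1)).filter Nat.Prime, (b p - a p) := ⟨_, rfl⟩
  have h1 : ∀ T : ℕ, B ≤ T → ∑ p ∈ (range (T + 1)).filter Nat.Prime, b p = ∑ p ∈ (range (T + 1)).filter Nat.Prime, a p + c := by
    intro T hT
    have h2 : ∑ p ∈ (range (B + 1)).filter Nat.Prime, (b p - a p) = ∑ p ∈ (range (T + 1)).filter Nat.Prime, (b p - a p) := by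
      apply sum_subset
      · exact filter_subset_filter _ (range_subset_range.2 (by omega))
      · intro p hp hp'
        rw [mem_filter] at hp hp'
        have hB : B < p := by
          by_contra hcon
          exact hp' ⟨by rw [mem_range]; omega, hp.2⟩
        rw [h p hp.2 hB, sub_self]
    rw [hc, h2, sum_sub_distrib]
    ring
  have h2 : Tendsto (fun T : ℕ => c / (T : ℝ)) atTop (𝓝 0) := tendsto_const_div_atTop_nhds_zero_nat c
  have h3 := ha.add h2
  rw [add_zero] at h3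
  refine h3.congr' ?_
  filter_upwards [eventually_ge_atTop B] with T hT
  rw [h1 T hT, add_div]

section
variable {K : Type} [Field K] [NumberField K]

/-- the number of the pairs -/
noncomputable def cp (g : (𝓞 K)[X]) (p : ℕ) : ℕ := Nat.card (Σ φ : 𝓞 K →+* ZMod p, {r : ZMod p // g.eval₂ φ r = 0})

lemma root_pit' {L : Type} [Field L] [NumberField L] [Algebra K L] (g : (𝓞 K)[X]) (hg : g.Monic) (θ : L)
    (h0 : aeval θ (g.map (algebraMap (𝓞 K) K)) = 0) (hgen : ∀ x : L, ∃ q : K[X], x = aeval θ q)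
    (hdvd : ∀ q : K[X], aeval θ q = 0 → g.map (algebraMap (𝓞 K) K) ∣ q) :
    Tendsto (fun T : ℕ => (∑ p ∈ (range (T + 1)).filter Nat.Prime, (cp g p : ℝ) * Real.log p) / T) atTop (𝓝 1) := by
  have h1 : IsIntegral (𝓞 K) θ := by
    refine ⟨g, hg, ?_⟩
    rw [aeval_map_algebraMap, aeval_def] at h0
    exact h0
  have h2 : IsIntegral ℤ θ := isIntegral_trans θ h1
  obtain ⟨θ', hθ'⟩ : ∃ θ' : 𝓞 L, (θ' : L) = θ := ⟨⟨θ, h2⟩, rfl⟩
  have hcast : ∀ f : (𝓞 K)[X], ((aeval θ' f : 𝓞 L) : L) = aeval θ (f.map (algebraMap (𝓞 K) K)) := by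
    intro f
    rw [aeval_map_algebraMap, ← hθ']
    exact (aeval_algebraMap_apply L θ' f).symm
  obtain ⟨B, hB⟩ := ext_bij θ' (by rw [hθ']; exact hgen) g
    (by
      apply RingOfIntegers.ext
      rw [hcast, h0]
      rfl)
    (fun f hf => by
      have e1 := hdvd (f.map (algebraMap (𝓞 K) K)) (by rw [← hcast, hf]; rfl)
      exact (map_dvd_map (algebraMap (𝓞 K) K) (RingOfIntegers.coe_injective) hg).1 e1)
  refine ev_congr (B := B) (fun p hp hBp => ?_) (H332.PIT.TT_tendsto (Pool.Agent.H484R2.continuation L))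
  have : Fact p.Prime := ⟨hp⟩
  rw [hB p hBp]
  rfl

lemma root_pit (g : (𝓞 K)[X]) (hg : g.Monic) (hirr : Irreducible (g.map (algebraMap (𝓞 K) K))) :
    Tendsto (fun T : ℕ => (∑ p ∈ (range (T + 1)).filter Nat.Prime, (cp g p : ℝ) * Real.log p) / T) atTop (𝓝 1) := by
  obtain ⟨P, hP⟩ : ∃ P : K[X], P = g.map (algebraMap (𝓞 K) K) := ⟨_, rfl⟩
  have hPm : P.Monic := by
    rw [hP]
    exact hg.map _
  have : Fact (Irreducible P) := ⟨by rw [hP]; exact hirr⟩
  have hfin : Module.Finite K (AdjoinRoot P) := (AdjoinRoot.powerBasis hPm.ne_zero).finite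
  have hnf : NumberField (AdjoinRoot P) := NumberField.of_module_finite K (AdjoinRoot P)
  refine root_pit' (L := AdjoinRoot P) g hg (AdjoinRoot.root P) ?_ ?_ ?_
  · rw [← hP, AdjoinRoot.aeval_eq, AdjoinRoot.mk_self]
  · intro x
    obtain ⟨q, hq⟩ := AdjoinRoot.mk_surjective x
    exact ⟨q, by rw [AdjoinRoot.aeval_eq, hq]⟩
  · intro q hq
    rw [← hP]
    rwa [AdjoinRoot.aeval_eq, AdjoinRoot.mk_eq_zero] at hq

/-- the common zeros of two irreducible polynomials -/
lemma no_common (g g' : (𝓞 K)[X]) (hco : IsCoprime (g.map (algebraMap (𝓞 K) K)) (g'.map (algebraMap (𝓞 K) K))) :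
    ∃ B : ℕ, ∀ (p : ℕ) [Fact p.Prime], B < p → ∀ (φ : 𝓞 K →+* ZMod p) (r : ZMod p), g.eval₂ φ r = 0 → g'.eval₂ φ r = 0 → False := by
  obtain ⟨u, w, huw⟩ := hco
  obtain ⟨b, hbm, hb⟩ := IsLocalization.integerNormalization_spec (nonZeroDivisors (𝓞 K)) u
  obtain ⟨c, hcm, hc⟩ := IsLocalization.integerNormalization_spec (nonZeroDivisors (𝓞 K)) w
  obtain ⟨U, hU⟩ : ∃ U : (𝓞 K)[X], U = IsLocalization.integerNormalization (nonZeroDivisors (𝓞 K)) u := ⟨_, rfl⟩
  obtain ⟨W, hW⟩ : ∃ W : (𝓞 K)[X], W = IsLocalization.integerNormalization (nonZeroDivisors (𝓞 K)) w := ⟨_, rfl⟩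
  rw [← hU] at hb
  rw [← hW] at hc
  have hb' : U.map (algebraMap (𝓞 K) K) = C (algebraMap (𝓞 K) K b) * u := by
    rw [← smul_eq_C_mul, algebraMap_smul]
    exact hb
  have hc' : W.map (algebraMap (𝓞 K) K) = C (algebraMap (𝓞 K) K c) * w := by
    rw [← smul_eq_C_mul, algebraMap_smul]
    exact hc
  have h1 : C c * U * g + C b * W * g' = C (b * c) := by
    apply map_injective (algebraMap (𝓞 K) K) RingOfIntegers.coe_injective
    rw [Polynomial.map_add, Polynomial.map_mul, Polynomial.map_mul, Polynomial.map_mul, Polynomial.map_mul, hb', hc', map_C, map_C, map_C, map_mul, C_mul]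
    linear_combination (C (algebraMap (𝓞 K) K b) * C (algebraMap (𝓞 K) K c)) * huw
  have hbc : b * c ≠ 0 := mul_ne_zero (nonZeroDivisors.ne_zero hbm) (nonZeroDivisors.ne_zero hcm)
  obtain ⟨B, hB⟩ := ne_large (b * c) hbc
  refine ⟨B, fun p hp hBp φ r h2 h3 => hB p hBp φ ?_⟩
  have h4 := congrArg (fun f => f.eval₂ φ r) h1
  beta_reduce at h4
  rw [eval₂_add, eval₂_mul, h2, mul_zero, zero_add, eval₂_mul, h3, mul_zero, eval₂_C] at h4
  exact h4.symm

/-- the number of the roots modulo `n` -/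
noncomputable def nr (G : ℤ[X]) (n : ℕ) : ℕ := Nat.card {r : ZMod n // G.eval₂ (Int.castRingHom (ZMod n)) r = 0}

lemma ni_zmod (G : ℤ[X]) (p : ℕ) [Fact p.Prime] : ni G (ZMod p) = nr G p := rfl

variable (K) in
/-- the monic irreducible factors over `K` -/
noncomputable def nf (G : ℤ[X]) : ℕ := Nat.card {P : K[X] // P.Monic ∧ Irreducible P ∧ P ∣ G.map (Int.castRingHom K)}

variable (K) in
/-- the decomposition -/
lemma split (G : ℤ[X]) (hG : G.Monic) : ∃ S : Finset (𝓞 K)[X], S.card = nf K G ∧ (∀ g ∈ S, g.Monic ∧ Irreducible (g.map (algebraMap (𝓞 K) K))) ∧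
    ∃ B : ℕ, ∀ p : ℕ, p.Prime → B < p → (Nat.card (𝓞 K →+* ZMod p) : ℝ) * nr G p = ∑ g ∈ S, (cp g p : ℝ) := by
  classical
  have hGm : (G.map (Int.castRingHom K)).Monic := hG.map _
  have hG0 : G.map (Int.castRingHom K) ≠ 0 := hGm.ne_zero
  -- the factors over the ring of integers
  have hint : ∀ P : K[X], P.Monic → P ∣ G.map (Int.castRingHom K) → ∃ g : (𝓞 K)[X], g.map (algebraMap (𝓞 K) K) = P := by
    intro P hP hd
    have h1 : G.map (Int.castRingHom K) = (G.map (Int.castRingHom (𝓞 K))).map (algebraMap (𝓞 K) K) := by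
      rw [Polynomial.map_map]
      congr 1
    rw [h1] at hd
    obtain ⟨g, hg⟩ := IsIntegrallyClosed.eq_map_mul_C_of_dvd K (hG.map _) hd
    refine ⟨g, ?_⟩
    rwa [hP.leadingCoeff, C_1, mul_one] at hg
  have hlift : ∀ P : K[X], ∃ g : (𝓞 K)[X], P ∈ normalizedFactors (G.map (Int.castRingHom K)) → g.map (algebraMap (𝓞 K) K) = P := by
    intro P
    by_cases hP : P ∈ normalizedFactors (G.map (Int.castRingHom K))
    · have h1 := (Polynomial.mem_normalizedFactors_iff hG0).1 hP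
      obtain ⟨g, hg⟩ := hint P h1.2.1 h1.2.2
      exact ⟨g, fun _ => hg⟩
    · exact ⟨0, fun h => absurd h hP⟩
  choose γ hγ using hlift
  have hinj : Function.Injective (Polynomial.map (algebraMap (𝓞 K) K)) := map_injective _ RingOfIntegers.coe_injective
  obtain ⟨F, hF⟩ : ∃ F : Finset K[X], F = (normalizedFactors (G.map (Int.castRingHom K))).toFinset := ⟨_, rfl⟩
  have hFmem : ∀ P, P ∈ F ↔ P.Monic ∧ Irreducible P ∧ P ∣ G.map (Int.castRingHom K) := by
    intro P
    rw [hF, Multiset.mem_toFinset, Polynomial.mem_normalizedFactors_iff hG0]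
    tauto
  have hFn : ∀ P ∈ F, (γ P).map (algebraMap (𝓞 K) K) = P := by
    intro P hP
    rw [hF, Multiset.mem_toFinset] at hP
    exact hγ P hP
  have hγinj : Set.InjOn γ F := by
    intro P hP Q hQ h
    rw [← hFn P hP, ← hFn Q hQ, h]
  refine ⟨F.image γ, ?_, ?_, ?_⟩
  · rw [card_image_of_injOn hγinj]
    unfold nf
    have h1 : Nat.card {P : K[X] // P.Monic ∧ Irreducible P ∧ P ∣ G.map (Int.castRingHom K)} = Nat.card {P : K[X] // P ∈ F} :=
      Nat.card_congr (Equiv.subtypeEquivRight fun P => (hFmem P).symm)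
    rw [h1]
    simp
  · intro g hg
    obtain ⟨P, hP, rfl⟩ := mem_image.1 hg
    have h1 := (hFmem P).1 hP
    rw [hFn P hP]
    refine ⟨?_, h1.2.1⟩
    apply monic_of_injective RingOfIntegers.coe_injective
    show ((γ P).map (algebraMap (𝓞 K) K)).Monic
    rw [hFn P hP]
    exact h1.1
  · -- no common roots
    have hco : ∀ P Q : K[X], ∃ B : ℕ, P ∈ F → Q ∈ F → P ≠ Q → ∀ (p : ℕ) [Fact p.Prime], B < p → ∀ (φ : 𝓞 K →+* ZMod p) (r : ZMod p),
        (γ P).eval₂ φ r = 0 → (γ Q).eval₂ φ r = 0 → False := by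
      intro P Q
      by_cases h : P ∈ F ∧ Q ∈ F ∧ P ≠ Q
      · obtain ⟨hP, hQ, hne⟩ := h
        have h1 : IsCoprime P Q := by
          have a1 := (hFmem P).1 hP
          have a2 := (hFmem Q).1 hQ
          rw [a1.2.1.coprime_iff_not_dvd]
          intro hd
          apply hne
          exact eq_of_monic_of_associated a1.1 a2.1 (a1.2.1.associated_of_dvd a2.2.1 hd)
        obtain ⟨B, hB⟩ := no_common (γ P) (γ Q) (by rw [hFn P hP, hFn Q hQ]; exact h1)
        exact ⟨B, fun _ _ _ => hB⟩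
      · exact ⟨0, fun h1 h2 h3 => absurd ⟨h1, h2, h3⟩ h⟩
    choose B hB using hco
    refine ⟨∑ P ∈ F, ∑ Q ∈ F, B P Q, fun p hp hBp => ?_⟩
    have hpf : Fact p.Prime := ⟨hp⟩
    have hBle : ∀ P ∈ F, ∀ Q ∈ F, B P Q < p := by
      intro P hP Q hQ
      have h1 : B P Q ≤ ∑ Q ∈ F, B P Q := single_le_sum (f := fun Q => B P Q) (fun _ _ => Nat.zero_le _) hQ
      have h2 : ∑ Q ∈ F, B P Q ≤ ∑ P ∈ F, ∑ Q ∈ F, B P Q := single_le_sum (f := fun P => ∑ Q ∈ F, B P Q) (fun _ _ => Nat.zero_le _) hP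
      omega
    have hfin : Finite (𝓞 K →+* ZMod p) := hom_finite (𝓞 K) p
    have hft : Fintype (𝓞 K →+* ZMod p) := Fintype.ofFinite _
    -- the roots modulo `p`
    have hroot : ∀ φ : 𝓞 K →+* ZMod p, ∀ r : ZMod p, G.eval₂ (Int.castRingHom (ZMod p)) r = 0 ↔ ∃ P ∈ F, (γ P).eval₂ φ r = 0 := by
      intro φ r
      have h1 : G.map (Int.castRingHom (𝓞 K)) = ((normalizedFactors (G.map (Int.castRingHom K))).map γ).prod := by
        apply hinj
        rw [Polynomial.map_multiset_prod, Multiset.map_map]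
        have h2 : (normalizedFactors (G.map (Int.castRingHom K))).map (fun P => (γ P).map (algebraMap (𝓞 K) K)) = normalizedFactors (G.map (Int.castRingHom K)) := by
          rw [Multiset.map_congr rfl (fun P hP => hγ P hP), Multiset.map_id']
        have h3 : (normalizedFactors (G.map (Int.castRingHom K))).map ((Polynomial.map (algebraMap (𝓞 K) K)) ∘ γ) = normalizedFactors (G.map (Int.castRingHom K)) := h2
        rw [h3, prod_normalizedFactors_eq hG0, hGm.normalize_eq_self, Polynomial.map_map]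
        congr 1
      have h4 : G.eval₂ (Int.castRingHom (ZMod p)) r = ((normalizedFactors (G.map (Int.castRingHom K))).map (fun P => (γ P).eval₂ φ r)).prod := by
        have h5 : G.eval₂ (Int.castRingHom (ZMod p)) r = (G.map (Int.castRingHom (𝓞 K))).eval₂ φ r := by
          rw [eval₂_map, RingHom.ext_int (Int.castRingHom (ZMod p)) (φ.comp (Int.castRingHom (𝓞 K)))]
        rw [h5, h1, ← coe_eval₂RingHom, map_multiset_prod, Multiset.map_map]
        rfl
      rw [h4, Multiset.prod_eq_zero_iff, Multiset.mem_map]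
      constructor
      · rintro ⟨P, hP, h5⟩
        exact ⟨P, by rw [hF, Multiset.mem_toFinset]; exact hP, h5⟩
      · rintro ⟨P, hP, h5⟩
        rw [hF, Multiset.mem_toFinset] at hP
        exact ⟨P, hP, h5⟩
    have hcard : ∀ φ : 𝓞 K →+* ZMod p, nr G p = ∑ P ∈ F, Nat.card {r : ZMod p // (γ P).eval₂ φ r = 0} := by
      intro φ
      unfold nr
      have h1 : ∀ P, Nat.card {r : ZMod p // (γ P).eval₂ φ r = 0} = ((univ : Finset (ZMod p)).filter (fun r => (γ P).eval₂ φ r = 0)).card := by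
        intro P
        rw [Nat.card_eq_fintype_card, Fintype.card_subtype]
      rw [Nat.card_eq_fintype_card, Fintype.card_subtype, sum_congr rfl (fun P _ => h1 P), ← card_biUnion]
      · congr 1
        ext r
        rw [mem_filter, mem_biUnion, hroot φ r]
        simp
      · intro P hP Q hQ hne
        show Disjoint ((univ : Finset (ZMod p)).filter (fun r => (γ P).eval₂ φ r = 0)) ((univ : Finset (ZMod p)).filter (fun r => (γ Q).eval₂ φ r = 0))
        rw [disjoint_left]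
        intro r h2 h3
        rw [mem_filter] at h2 h3
        exact hB P Q hP hQ hne p (hBle P hP Q hQ) φ r h2.2 h3.2
    rw [sum_image (fun P hP Q hQ h => hγinj hP hQ h)]
    have h1 : ∀ P ∈ F, (cp (γ P) p : ℝ) = ∑ φ : 𝓞 K →+* ZMod p, (Nat.card {r : ZMod p // (γ P).eval₂ φ r = 0} : ℝ) := by
      intro P _
      unfold cp
      rw [Nat.card_sigma]
      push_cast
      rfl
    rw [sum_congr rfl h1, sum_comm]
    have h2 : ∀ φ : 𝓞 K →+* ZMod p, ∑ P ∈ F, (Nat.card {r : ZMod p // (γ P).eval₂ φ r = 0} : ℝ) = nr G p := by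
      intro φ
      rw [hcard φ]
      push_cast
      rfl
    rw [sum_congr rfl (fun φ _ => h2 φ), sum_const, card_univ, nsmul_eq_mul, Nat.card_eq_fintype_card]

/-- the sums over the prime ideals of degree one -/
lemma deg1_eq (ρ : ℕ → ℝ) (T : ℕ) : ∑ v ∈ (VT K T).filter (fun v => (Ideal.absNorm v.asIdeal).Prime), ρ (Ideal.absNorm v.asIdeal) * Real.log (Ideal.absNorm v.asIdeal) =
    ∑ p ∈ (range (T + 1)).filter Nat.Prime, ((Nat.card (𝓞 K →+* ZMod p) : ℝ) * ρ p) * Real.log p := by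
  classical
  rw [sum_deg1]
  refine sum_bij (fun k _ => Nat.nth Nat.Prime k) ?_ ?_ ?_ ?_
  · intro k hk
    rw [mem_range, cnt] at hk
    rw [mem_filter, mem_range]
    exact ⟨by omega, Nat.prime_nth_prime _⟩
  · intro k _ k' _ h
    exact Nat.nth_injective Nat.infinite_setOfPred_prime h
  · intro p hp
    rw [mem_filter, mem_range] at hp
    refine ⟨Nat.count Nat.Prime p, ?_, Nat.nth_count hp.2⟩
    rw [mem_range, cnt, Nat.nth_count hp.2]
    omega
  · intro k _
    have hfin : Finite ((e : Fin 1) → (𝓞 K →+* ZMod (Nat.nth Nat.Prime (k + e)))) := by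
      have : ∀ e : Fin 1, Finite (𝓞 K →+* ZMod (Nat.nth Nat.Prime (k + e))) := fun e => hom_finite (𝓞 K) _
      exact Pi.finite
    have hft : Fintype ((e : Fin 1) → (𝓞 K →+* ZMod (Nat.nth Nat.Prime (k + e)))) := Fintype.ofFinite _
    rw [finsum_eq_sum_of_fintype]
    have h1 : ∀ φ ∈ (univ : Finset ((e : Fin 1) → (𝓞 K →+* ZMod (Nat.nth Nat.Prime (k + e))))),
        ρ (Ideal.absNorm (hv (φ 0)).asIdeal) * Real.log (Ideal.absNorm (hv (φ 0)).asIdeal) = ρ (Nat.nth Nat.Prime k) * Real.log (Nat.nth Nat.Prime k) := by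
      intro φ _
      rw [absNorm_hv]
      rfl
    rw [sum_congr rfl h1, sum_const, nsmul_eq_mul, card_univ, ← Nat.card_eq_fintype_card, mul_assoc]
    congr 2
    exact Nat.card_congr (Equiv.piUnique (fun e : Fin 1 => 𝓞 K →+* ZMod (Nat.nth Nat.Prime (k + (e : ℕ)))))

lemma ni_le (G : ℤ[X]) (hG : G.Monic) (κ : Type) [Field κ] [Finite κ] : ni G κ ≤ G.natDegree := by
  classical
  have := Fintype.ofFinite κ
  unfold ni
  rw [Nat.card_eq_fintype_card, Fintype.card_subtype]
  have h1 : (G.map (Int.castRingHom κ)) ≠ 0 := (hG.map _).ne_zero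
  have h2 : (univ.filter (fun r : κ => G.eval₂ (Int.castRingHom κ) r = 0)) ⊆ (G.map (Int.castRingHom κ)).roots.toFinset := by
    intro r hr
    rw [mem_filter] at hr
    rw [Multiset.mem_toFinset, mem_roots h1, IsRoot.def, eval_map]
    exact hr.2
  refine (card_le_card h2).trans ((Multiset.toFinset_card_le _).trans ((card_roots' _).trans ?_))
  rw [hG.natDegree_map]

lemma ni_res (G : ℤ[X]) (v : HeightOneSpectrum (𝓞 K)) (hv1 : (Ideal.absNorm v.asIdeal).Prime) : ni G (Res v) = nr G (Ideal.absNorm v.asIdeal) := by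
  have hF : Fact (Ideal.absNorm v.asIdeal).Prime := ⟨hv1⟩
  obtain ⟨φ, hφ⟩ := hv_surj v (Ideal.absNorm v.asIdeal) rfl
  obtain ⟨σ, -⟩ := res_iso φ
  have h1 := ni_congr G σ
  rw [ni_zmod] at h1
  rw [h1]
  congr 1
  · rw [hφ]
  · rw [hφ]

variable (K) in
/-- **The numbers of the roots of `G` modulo prime ideals.** -/
theorem roots_tendsto (G : ℤ[X]) (hG : G.Monic) :
    Tendsto (fun T : ℕ => (∑ v ∈ VT K T, (ni G (Res v) : ℝ) * Real.log (Ideal.absNorm v.asIdeal)) / T) atTop (𝓝 (nf K G)) := by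
  classical
  obtain ⟨S, hS1, hS2, B, hB⟩ := split K G hG
  have h1 : Tendsto (fun T : ℕ => (∑ p ∈ (range (T + 1)).filter Nat.Prime, ((Nat.card (𝓞 K →+* ZMod p) : ℝ) * nr G p) * Real.log p) / T) atTop (𝓝 (nf K G)) := by
    have h2 : Tendsto (fun T : ℕ => ∑ g ∈ S, (∑ p ∈ (range (T + 1)).filter Nat.Prime, (cp g p : ℝ) * Real.log p) / T) atTop (𝓝 (∑ g ∈ S, (1 : ℝ))) :=
      tendsto_finsetSum _ fun g hg => root_pit g (hS2 g hg).1 (hS2 g hg).2
    rw [sum_const, nsmul_eq_mul, mul_one, hS1] at h2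
    refine ev_congr (a := fun p => (∑ g ∈ S, (cp g p : ℝ)) * Real.log p) (B := B) (fun p hp hBp => by rw [hB p hp hBp]) (h2.congr fun T => ?_)
    rw [← sum_div, sum_comm]
    congr 1
    refine sum_congr rfl fun p _ => ?_
    rw [sum_mul]
  have h2 : ∀ T : ℕ, ∑ v ∈ (VT K T).filter (fun v => (Ideal.absNorm v.asIdeal).Prime), (ni G (Res v) : ℝ) * Real.log (Ideal.absNorm v.asIdeal) =
      ∑ p ∈ (range (T + 1)).filter Nat.Prime, ((Nat.card (𝓞 K →+* ZMod p) : ℝ) * nr G p) * Real.log p := by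
    intro T
    rw [← deg1_eq (K := K) (fun n => (nr G n : ℝ)) T]
    refine sum_congr rfl fun v hv1 => ?_
    rw [mem_filter] at hv1
    rw [ni_res G v hv1.2]
  have hnorm : ∀ v : HeightOneSpectrum (𝓞 K), (1 : ℝ) ≤ Ideal.absNorm v.asIdeal := by
    intro v
    have : Ideal.absNorm v.asIdeal ≠ 0 := by
      rw [Ne, Ideal.absNorm_eq_zero_iff]
      exact v.ne_bot
    exact_mod_cast Nat.one_le_iff_ne_zero.2 this
  have hfin : ∀ v : HeightOneSpectrum (𝓞 K), Finite (Res v) := by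
    intro v
    apply Nat.finite_of_card_ne_zero
    rw [card_Res]
    have := hnorm v
    intro h0
    rw [h0] at this
    norm_num at this
  have h3 : Tendsto (fun T : ℕ => (∑ v ∈ (VT K T).filter (fun v => ¬ (Ideal.absNorm v.asIdeal).Prime), (ni G (Res v) : ℝ) * Real.log (Ideal.absNorm v.asIdeal)) / T) atTop (𝓝 0) := by
    have e1 : Tendsto (fun T : ℕ => (G.natDegree : ℝ) * ((∑ v ∈ (VT K T).filter (fun v => ¬ (Ideal.absNorm v.asIdeal).Prime), Real.log (Ideal.absNorm v.asIdeal)) / T)) atTop (𝓝 0) := by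
      have := (high_tendsto K).const_mul (G.natDegree : ℝ)
      rwa [mul_zero] at this
    refine squeeze_zero' ?_ ?_ e1
    · filter_upwards with T
      exact div_nonneg (sum_nonneg fun v _ => mul_nonneg (Nat.cast_nonneg _) (Real.log_nonneg (hnorm v))) (Nat.cast_nonneg _)
    · filter_upwards with T
      rw [← mul_div_assoc, mul_sum]
      apply div_le_div_of_nonneg_right _ (Nat.cast_nonneg _)
      refine sum_le_sum fun v _ => ?_
      have := hfin v
      exact mul_le_mul_of_nonneg_right (by exact_mod_cast ni_le G hG (Res v)) (Real.log_nonneg (hnorm v))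
  have h4 := h1.add h3
  rw [add_zero] at h4
  refine h4.congr fun T => ?_
  rw [← add_div, ← h2, sum_filter_add_sum_filter_not]

end

end Pool.Agent.N842.TX
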