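import Mathlib

/-!
# Homomorphisms of rings of integers and roots
-/

set_option autoImplicit false

namespace Pool.Agent.N842.TX

open Finset NumberField Polynomial

section
variable {K L : Type} [Field K] [NumberField K] [Field L] [NumberField L] [Algebra K L]

/-- `N * x` is a polynomial in `θ` -/
def Rep (θ : 𝓞 L) (N : 𝓞 K) (x : 𝓞 L) : Prop := ∃ f : (𝓞 K)[X], algebraMap (𝓞 K) (𝓞 L) N * x = aeval θ f

lemma exists_den (θ : 𝓞 L) (hθ : ∀ x : L, ∃ q : K[X], x = aeval (θ : L) q) : ∃ N : 𝓞 K, N ≠ 0 ∧ ∀ x : 𝓞 L, Rep θ N x := by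
  classical
  -- one element
  have h1 : ∀ x : 𝓞 L, ∃ N : 𝓞 K, N ≠ 0 ∧ Rep θ N x := by
    intro x
    obtain ⟨q, hq⟩ := hθ x
    obtain ⟨b, hbm, hb⟩ := IsLocalization.integerNormalization_spec (nonZeroDivisors (𝓞 K)) q
    refine ⟨b, nonZeroDivisors.ne_zero hbm, IsLocalization.integerNormalization (nonZeroDivisors (𝓞 K)) q, ?_⟩
    apply RingOfIntegers.ext
    have h2 : ((aeval θ (IsLocalization.integerNormalization (nonZeroDivisors (𝓞 K)) q) : 𝓞 L) : L) =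
        aeval (θ : L) ((IsLocalization.integerNormalization (nonZeroDivisors (𝓞 K)) q).map (algebraMap (𝓞 K) K)) := by
      rw [aeval_map_algebraMap]
      exact (aeval_algebraMap_apply L θ _).symm
    have h3 : aeval (θ : L) (b • q) = algebraMap K L b * aeval (θ : L) q := by
      rw [Algebra.smul_def, IsScalarTower.algebraMap_apply (𝓞 K) K K[X], map_mul]
      congr 1
      simp
    rw [h2, hb]
    refine Eq.trans ?_ h3.symm
    rw [← hq]
    rfl
  -- the generators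
  obtain ⟨s, hs⟩ := Module.Finite.fg_top (R := ℤ) (M := 𝓞 L)
  choose N hN hR using h1
  refine ⟨∏ x ∈ s, N x, prod_ne_zero_iff.2 fun x _ => hN x, fun x => ?_⟩
  have hx : x ∈ Submodule.span ℤ (s : Set (𝓞 L)) := by
    rw [hs]
    exact Submodule.mem_top
  induction hx using Submodule.span_induction with
  | mem x hx =>
    obtain ⟨f, hf⟩ := hR x
    refine ⟨C (∏ y ∈ s.erase x, N y) * f, ?_⟩
    rw [map_mul, aeval_C, ← hf, ← mul_prod_erase s N hx, map_mul]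
    ring
  | zero => exact ⟨0, by rw [mul_zero, map_zero]⟩
  | add x y _ _ hx hy =>
    obtain ⟨f, hf⟩ := hx
    obtain ⟨g, hg⟩ := hy
    exact ⟨f + g, by rw [map_add, mul_add, hf, hg]⟩
  | smul n x _ hx =>
    obtain ⟨f, hf⟩ := hx
    exact ⟨(n : (𝓞 K)[X]) * f, by rw [map_mul, map_intCast, zsmul_eq_mul, ← hf]; ring⟩

/-- a nonzero element does not vanish modulo large prime numbers -/
lemma ne_large (N : 𝓞 K) (hN : N ≠ 0) : ∃ B : ℕ, ∀ (p : ℕ) [Fact p.Prime], B < p → ∀ φ : 𝓞 K →+* ZMod p, φ N ≠ 0 := by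
  refine ⟨Ideal.absNorm (Ideal.span {N}), fun p hp hB φ h => ?_⟩
  have h1 : Ideal.absNorm (Ideal.span {N}) ≠ 0 := by
    rw [Ne, Ideal.absNorm_eq_zero_iff, Ideal.span_singleton_eq_bot]
    exact hN
  have h2 : φ (Ideal.absNorm (Ideal.span {N}) : 𝓞 K) = 0 := by
    have h3 : ((Ideal.absNorm (Ideal.span {N}) : ℕ) : 𝓞 K) ∈ Ideal.span {N} := Ideal.absNorm_mem _
    obtain ⟨c, hc⟩ := Ideal.mem_span_singleton'.1 h3
    rw [← hc, map_mul, h, mul_zero]
  rw [map_natCast, ZMod.natCast_eq_zero_iff] at h2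
  have := Nat.le_of_dvd (Nat.pos_of_ne_zero h1) h2
  omega

/-- the restriction of a homomorphism and the image of the generator -/
theorem ext_bij (θ : 𝓞 L) (hθ : ∀ x : L, ∃ q : K[X], x = aeval (θ : L) q) (g : (𝓞 K)[X])
    (hg0 : aeval θ g = 0) (hg : ∀ f : (𝓞 K)[X], aeval θ f = 0 → g ∣ f) :
    ∃ B : ℕ, ∀ (p : ℕ) [Fact p.Prime], B < p →
      Nat.card (𝓞 L →+* ZMod p) = Nat.card (Σ φ : 𝓞 K →+* ZMod p, {r : ZMod p // g.eval₂ φ r = 0}) := by
  classical
  obtain ⟨N, hN, hR⟩ := exists_den θ hθ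
  obtain ⟨B, hB⟩ := ne_large N hN
  refine ⟨B, fun p hp hBp => ?_⟩
  have hφN := hB p hBp
  have hev : ∀ (ψ : 𝓞 L →+* ZMod p) (f : (𝓞 K)[X]), ψ (aeval θ f) = f.eval₂ (ψ.comp (algebraMap (𝓞 K) (𝓞 L))) (ψ θ) := by
    intro ψ f
    rw [aeval_def, hom_eval₂]
  refine Nat.card_congr (Equiv.ofBijective (fun ψ : 𝓞 L →+* ZMod p =>
    (⟨ψ.comp (algebraMap (𝓞 K) (𝓞 L)), ⟨ψ θ, by rw [← hev, hg0, map_zero]⟩⟩ : Σ φ : 𝓞 K →+* ZMod p, {r : ZMod p // g.eval₂ φ r = 0})) ⟨?_, ?_⟩)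
  · intro ψ ψ' h
    rw [Sigma.mk.injEq] at h
    obtain ⟨h1, h2⟩ := h
    have h3 : ψ θ = ψ' θ := by
      have : ∀ (φ φ' : 𝓞 K →+* ZMod p) (hφ : φ = φ') (a : {r : ZMod p // g.eval₂ φ r = 0}) (b : {r : ZMod p // g.eval₂ φ' r = 0}), HEq a b → a.1 = b.1 := by
        intro φ φ' hφ a b hab
        subst hφ
        rw [eq_of_heq hab]
      exact this _ _ h1 _ _ h2
    ext x
    obtain ⟨f, hf⟩ := hR x
    have e1 : ψ (algebraMap (𝓞 K) (𝓞 L) N) * ψ x = ψ' (algebraMap (𝓞 K) (𝓞 L) N) * ψ' x := by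
      rw [← map_mul, ← map_mul, hf, hev, hev, h1, h3]
    have e2 : ψ (algebraMap (𝓞 K) (𝓞 L) N) = ψ' (algebraMap (𝓞 K) (𝓞 L) N) := RingHom.congr_fun h1 N
    rw [← e2] at e1
    exact mul_left_cancel₀ (hφN (ψ.comp (algebraMap (𝓞 K) (𝓞 L)))) e1
  · rintro ⟨φ, r, hr⟩
    choose F hF using hR
    have hc := hφN φ
    -- the values do not depend on the choice
    have huniq : ∀ f f' : (𝓞 K)[X], aeval θ f = aeval θ f' → f.eval₂ φ r = f'.eval₂ φ r := by
      intro f f' h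
      have h1 : aeval θ (f - f') = 0 := by rw [map_sub, h, sub_self]
      obtain ⟨q, hq⟩ := hg _ h1
      have h2 : (f - f').eval₂ φ r = 0 := by rw [hq, eval₂_mul, hr, zero_mul]
      rw [eval₂_sub] at h2
      exact sub_eq_zero.1 h2
    refine ⟨{ toFun := fun x => (φ N)⁻¹ * (F x).eval₂ φ r
              map_one' := ?_
              map_mul' := ?_
              map_zero' := ?_
              map_add' := ?_ }, ?_⟩
    · have h1 : (F 1).eval₂ φ r = φ N := by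
        rw [huniq (F 1) (C N) (by rw [← hF, mul_one, aeval_C]), eval₂_C]
      rw [h1, inv_mul_cancel₀ hc]
    · intro x y
      have h1 : φ N * (F (x * y)).eval₂ φ r = (F x).eval₂ φ r * (F y).eval₂ φ r := by
        rw [← eval₂_mul, ← eval₂_C (φ) r (a := N), ← eval₂_mul]
        apply huniq
        rw [map_mul, map_mul, ← hF, ← hF, ← hF, aeval_C]
        ring
      have h2 : (F (x * y)).eval₂ φ r = (φ N)⁻¹ * ((F x).eval₂ φ r * (F y).eval₂ φ r) := by
        rw [← h1, ← mul_assoc, inv_mul_cancel₀ hc, one_mul]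
      rw [h2]
      ring
    · have h1 : (F 0).eval₂ φ r = 0 := by
        rw [huniq (F 0) 0 (by rw [← hF, mul_zero, map_zero]), eval₂_zero]
      rw [h1, mul_zero]
    · intro x y
      have h1 : (F (x + y)).eval₂ φ r = (F x).eval₂ φ r + (F y).eval₂ φ r := by
        rw [← eval₂_add]
        apply huniq
        rw [map_add, ← hF, ← hF, ← hF]
        ring
      rw [h1]
      ring
    · have e1 : ∀ a : 𝓞 K, (φ N)⁻¹ * (F (algebraMap (𝓞 K) (𝓞 L) a)).eval₂ φ r = φ a := by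
        intro a
        have h1 : (F (algebraMap (𝓞 K) (𝓞 L) a)).eval₂ φ r = φ N * φ a := by
          rw [huniq (F (algebraMap (𝓞 K) (𝓞 L) a)) (C (N * a)) (by rw [← hF, aeval_C, map_mul]), eval₂_C, map_mul]
        rw [h1, ← mul_assoc, inv_mul_cancel₀ hc, one_mul]
      have e2 : (φ N)⁻¹ * (F θ).eval₂ φ r = r := by
        have h1 : (F θ).eval₂ φ r = φ N * r := by
          rw [huniq (F θ) (C N * X) (by rw [← hF, map_mul, aeval_C, aeval_X]), eval₂_mul, eval₂_C, eval₂_X]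
        rw [h1, ← mul_assoc, inv_mul_cancel₀ hc, one_mul]
      have key : ∀ (φ' : 𝓞 K →+* ZMod p) (r' : ZMod p) (h' : g.eval₂ φ' r' = 0), φ' = φ → r' = r →
          (⟨φ', ⟨r', h'⟩⟩ : Σ φ : 𝓞 K →+* ZMod p, {r : ZMod p // g.eval₂ φ r = 0}) = ⟨φ, ⟨r, hr⟩⟩ := by
        intro φ' r' h' h1 h2
        subst h1
        subst h2
        rfl
      apply key
      · ext a
        exact e1 a
      · exact e2

end

end Pool.Agent.N842.TX
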