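import Pool.Agent.N842.TX.Geo

/-!
# The averages of the traces of almost all pencils of plane curves
-/

set_option autoImplicit false

namespace Pool.Agent.N842.TX

open Finset NumberField IsDedekindDomain
open Pool.Agent.N842.HS (nuz one_le_sq sq_mul Res rho card_Res res_iso hv absNorm_hv VT mem_VT card_high sum_deg1 cf hom_card hom_finite pr_ge pi_le
  genV num_inj)
open Pool.Agent.TH894.NF (pr pr_prime)
open Pool.Agent.Y57.FD (digit exceptions)

section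
variable {D d E : ℕ} (e : Fin D ≃ Exp3 d E) (G : Polynomial ℤ)

/-- the truncated averages over the prime fields -/
noncomputable def Gp (η : ℝ) (p : ℕ) [Fact p.Prime] (u : Fin D → ZMod p) : ℝ :=
  tc ((p : ℝ) ^ η) (avg e G (ZMod p) u - 1 + ni G (ZMod p))

/-- the means -/
noncomputable def mp (η : ℝ) (p : ℕ) [Fact p.Prime] : ℝ := (∑ u : Fin D → ZMod p, Gp e G η p u) / (p : ℝ) ^ D

open Classical in
/-- the means for all numbers -/
noncomputable def mpn (η : ℝ) (n : ℕ) : ℝ := if h : n.Prime then @mp D d E e G η n ⟨h⟩ else 0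

lemma mpn_eq (η : ℝ) (p : ℕ) [hp : Fact p.Prime] : mpn e G η p = mp e G η p := by
  unfold mpn
  rw [dif_pos hp.out]

lemma Gp_le (η : ℝ) (p : ℕ) [hp : Fact p.Prime] (u : Fin D → ZMod p) : |Gp e G η p u| ≤ (p : ℝ) ^ η :=
  tc_le (by positivity) _

lemma card_box (p : ℕ) [hp : Fact p.Prime] : ((univ : Finset (Fin D → ZMod p)).card : ℝ) = (p : ℝ) ^ D := by
  rw [card_univ, Fintype.card_pi_const, ZMod.card]
  push_cast
  rfl

lemma mp_le' (η : ℝ) (p : ℕ) [hp : Fact p.Prime] : |mp e G η p| ≤ (p : ℝ) ^ η := by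
  have hp0 : (0 : ℝ) < p := by exact_mod_cast hp.out.pos
  unfold mp
  rw [abs_div, abs_of_pos (by positivity : (0 : ℝ) < (p : ℝ) ^ D), div_le_iff₀ (by positivity)]
  refine (abs_sum_le_sum_abs _ _).trans ((sum_le_sum fun u _ => Gp_le e G η p u).trans ?_)
  rw [sum_const, nsmul_eq_mul, card_box, mul_comm]

lemma mp_le {h : ℕ} (hh : 2 ≤ h) (hev : Even h) (hd : h ≤ d) (hE : h ≤ E + 1) :
    ∃ C : ℝ, 0 ≤ C ∧ ∀ (p : ℕ) [Fact p.Prime], |mp e G (1 / (2 * (h : ℝ))) p| ≤ C * (p : ℝ) ^ (-(1 / 2 - 1 / (2 * (h : ℝ)))) := by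
  obtain ⟨C, hC0, hC⟩ := mean_tc (full_exp e hd hE) (by norm_num) hh hev
  refine ⟨C, hC0, fun p hp => ?_⟩
  have h1 : mp e G (1 / (2 * (h : ℝ))) p = - ((∑ u : Fin D → ZMod p, tc ((p : ℝ) ^ (1 / (2 * (h : ℝ)))) (nb (fun k => (e k).1) p (gp d G p) u)) / (p : ℝ) ^ D) := by
    unfold mp Gp
    rw [← neg_div, ← sum_neg_distrib]
    congr 1
    refine sum_congr rfl fun u _ => ?_
    rw [avg_zmod, ← tc_neg]
    congr 1
    ring
  rw [h1, abs_neg]
  exact hC p (gp d G p)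

end

/-- a telescoping bound -/
lemma tele (s : ℝ) (hs0 : 0 ≤ s) (hs1 : s ≤ 1 / 2) (T : ℕ) : ∑ k ∈ range T, ((k : ℝ) + 1) ^ (-s) ≤ 2 * (T : ℝ) ^ (1 - s) := by
  induction T with
  | zero =>
    rw [range_zero, sum_empty]
    positivity
  | succ T ih =>
    rw [sum_range_succ]
    have hT : (0 : ℝ) < (T : ℝ) + 1 := by positivity
    have h1 : (T : ℝ) ^ (1 - s) ≤ ((T : ℝ) + 1) ^ (1 - s) * (1 + (1 - s) * (-(1 / ((T : ℝ) + 1)))) := by
      have e1 : (T : ℝ) = ((T : ℝ) + 1) * (1 + -(1 / ((T : ℝ) + 1))) := by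
        field_simp
        ring
      have e2 : 1 / ((T : ℝ) + 1) ≤ 1 := by
        rw [div_le_one hT]
        linarith [Nat.cast_nonneg (α := ℝ) T]
      have e3 : (T : ℝ) ^ (1 - s) = ((T : ℝ) + 1) ^ (1 - s) * (1 + -(1 / ((T : ℝ) + 1))) ^ (1 - s) := by
        rw [← Real.mul_rpow hT.le (by linarith), ← e1]
      rw [e3]
      apply mul_le_mul_of_nonneg_left _ (by positivity)
      exact rpow_one_add_le_one_add_mul_self (by linarith) (by linarith) (by linarith)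
    have h2 : ((T : ℝ) + 1) ^ (-s) = ((T : ℝ) + 1) ^ (1 - s) * (1 / ((T : ℝ) + 1)) := by
      rw [one_div, ← Real.rpow_neg_one, ← Real.rpow_add hT]
      congr 1
      ring
    have h3 : 0 ≤ ((T : ℝ) + 1) ^ (1 - s) * (1 / ((T : ℝ) + 1)) := by positivity
    push_cast
    rw [h2]
    nlinarith

section
variable {K : Type} [Field K] [NumberField K]

variable (K) in
/-- the sums of the negative powers of the norms -/
lemma sum_pow : ∃ n : ℕ, ∀ s : ℝ, 0 ≤ s → s ≤ 1 / 2 → ∀ T : ℕ,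
    ∑ v ∈ (VT K T).filter (fun v => (Ideal.absNorm v.asIdeal).Prime), (Ideal.absNorm v.asIdeal : ℝ) ^ (-s) ≤ n * (2 * (T : ℝ) ^ (1 - s)) := by
  obtain ⟨n, hn⟩ := hom_card (𝓞 K)
  refine ⟨n, fun s hs0 hs1 T => ?_⟩
  rw [sum_deg1]
  have h1 : ∀ k ∈ range (Nat.primeCounting T), ∑ᶠ φ : (e : Fin 1) → (𝓞 K →+* ZMod (Nat.nth Nat.Prime (k + e))),
      (Ideal.absNorm (hv (φ 0)).asIdeal : ℝ) ^ (-s) ≤ n * ((k : ℝ) + 1) ^ (-s) := by
    intro k _
    have hfin : Finite ((e : Fin 1) → (𝓞 K →+* ZMod (Nat.nth Nat.Prime (k + e)))) := by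
      have : ∀ e : Fin 1, Finite (𝓞 K →+* ZMod (Nat.nth Nat.Prime (k + e))) := fun e => hom_finite (𝓞 K) _
      exact Pi.finite
    have hft : Fintype ((e : Fin 1) → (𝓞 K →+* ZMod (Nat.nth Nat.Prime (k + e)))) := Fintype.ofFinite _
    rw [finsum_eq_sum_of_fintype]
    refine (sum_le_sum (g := fun _ => ((k : ℝ) + 1) ^ (-s)) fun φ _ => ?_).trans ?_
    · rw [absNorm_hv]
      apply Real.rpow_le_rpow_of_nonpos (by positivity) _ (by linarith)
      have : k + 1 ≤ Nat.nth Nat.Prime (k + ((0 : Fin 1) : ℕ)) := pr_ge k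
      exact_mod_cast this
    · rw [sum_const, card_univ, nsmul_eq_mul]
      apply mul_le_mul_of_nonneg_right _ (by positivity)
      have h4 := Fintype.card_le_of_injective _ (num_inj (R := 𝓞 K) (s := 1) hn k)
      rw [Fintype.card_fun, Fintype.card_fin, Fintype.card_fin, pow_one] at h4
      exact_mod_cast h4
  refine (sum_le_sum h1).trans ?_
  rw [← mul_sum]
  apply mul_le_mul_of_nonneg_left _ (Nat.cast_nonneg _)
  refine le_trans ?_ (tele s hs0 hs1 T)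
  apply sum_le_sum_of_subset_of_nonneg
  · exact range_subset_range.2 (pi_le T)
  · intro k _ _
    positivity

lemma ev_fin (n : ℝ) (hn : 0 ≤ n) (η δ : ℝ) (hδ : 0 < δ) : ∀ᶠ T : ℕ in Filter.atTop,
    (T : ℝ) ^ (1 / 2 + η + δ / 2) + n * ((T : ℝ) ^ (1 / 2 + η) * Real.log T) ≤ (T : ℝ) ^ (1 / 2 + η + δ) := by
  have h1 : ∀ᶠ x : ℝ in Filter.atTop, 2 ≤ x ^ (δ / 2) := (tendsto_rpow_atTop (by positivity)).eventually (Filter.eventually_ge_atTop _)
  have h2 := (isLittleO_log_rpow_atTop (show (0 : ℝ) < δ by positivity)).bound (show (0 : ℝ) < 1 / (2 * (n + 1)) by positivity)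
  have h3 : ∀ᶠ x : ℝ in Filter.atTop, x ^ (1 / 2 + η + δ / 2) + n * (x ^ (1 / 2 + η) * Real.log x) ≤ x ^ (1 / 2 + η + δ) := by
    filter_upwards [h1, h2, Filter.eventually_ge_atTop 1] with x h1 h2 h3
    have hx0 : 0 < x := by linarith
    rw [Real.norm_of_nonneg (Real.log_nonneg h3), Real.norm_of_nonneg (by positivity), div_mul_eq_mul_div, one_mul, le_div_iff₀ (by positivity)] at h2
    have e1 : x ^ (1 / 2 + η + δ) = x ^ (1 / 2 + η + δ / 2) * x ^ (δ / 2) := by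
      rw [← Real.rpow_add hx0]
      congr 1
      ring
    have e2 : x ^ (1 / 2 + η + δ) = x ^ (1 / 2 + η) * x ^ δ := by
      rw [← Real.rpow_add hx0]
    have e3 : x ^ (1 / 2 + η + δ / 2) ≤ x ^ (1 / 2 + η + δ) / 2 := by
      rw [e1]
      have : 0 < x ^ (1 / 2 + η + δ / 2) := by positivity
      nlinarith
    have e4 : n * (x ^ (1 / 2 + η) * Real.log x) ≤ x ^ (1 / 2 + η + δ) / 2 := by
      rw [e2]
      have hl : 0 ≤ Real.log x := Real.log_nonneg h3
      have e5 : n * Real.log x * 2 ≤ x ^ δ := by nlinarith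
      have e6 : 0 ≤ x ^ (1 / 2 + η) := by positivity
      nlinarith
    linarith
  exact tendsto_natCast_atTop_atTop.eventually h3

variable {D d E : ℕ} (e : Fin D ≃ Exp3 d E) (G : Polynomial ℤ)

/-- the truncated averages -/
noncomputable def Fv (η : ℝ) (v : HeightOneSpectrum (𝓞 K)) (c : Fin D → 𝓞 K) : ℝ :=
  tc ((Nat.card (Res v) : ℝ) ^ η) (avg e G (Res v) (fun k => rho v (c k)) - 1 + ni G (Res v))

lemma Fv_hv (η : ℝ) {p : ℕ} [Fact p.Prime] (φ : 𝓞 K →+* ZMod p) (c : Fin D → 𝓞 K) : Fv e G η (hv φ) c = Gp e G η p (fun k => φ (c k)) := by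
  obtain ⟨σ, hσ⟩ := res_iso φ
  unfold Fv Gp
  rw [card_Res, absNorm_hv, ← avg_congr e G σ, ← ni_congr G σ]
  simp only [hσ]

lemma Fv_le (η : ℝ) (v : HeightOneSpectrum (𝓞 K)) (c : Fin D → 𝓞 K) : |Fv e G η v c| ≤ (Ideal.absNorm v.asIdeal : ℝ) ^ η := by
  rw [← card_Res]
  exact tc_le (by positivity) _

open Classical in
/-- **The averages of the traces over all prime ideals.** -/
theorem law {h : ℕ} (hh : 2 ≤ h) (hev : Even h) (hd : h ≤ d) (hE : h ≤ E + 1)
    (b g : ℕ) (ω : Fin g → 𝓞 K) (hω : (1 : 𝓞 K) ∈ Submodule.span ℤ (Set.range ω)) (hg : 1 ≤ g) (hb : 2 ≤ b) (δ : ℝ) (hδ : 0 < δ) (A B : ℕ) :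
    ∃ c : ℝ, 0 < c ∧ ∃ y₀ : ℕ, ∀ (L r : Fin (D * g) → ℕ) (y : ℕ), (∀ i, 2 * r i ≤ L i) → y₀ ≤ y →
    ∀ N' : Fin (D * g) → ℕ, (∀ i, N' i < b ^ L i) →
    ∀ f : Fin (D * g) → ℕ → ℕ, (∀ i j, f i j < b ∧ f i j ≠ digit b j (N' i)) →
    ∀ W : ℕ → Set (HeightOneSpectrum (𝓞 K) → ℝ), (∀ T, (W T).Finite ∧ (W T).ncard ≤ T ^ B) → (∀ T, ∀ w ∈ W T, ∀ v, |w v| ≤ 1) →
    ∀ P : (Fin (D * g) → ℕ) → Prop,
    (∀ m : Fin (D * g) → ℕ, (∀ T : ℕ, y ≤ T → (∀ i, (T : ℝ) ≤ Real.exp (c * r i)) → ∀ w ∈ W T,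
      |∑ v ∈ VT K T, w v * (Fv e G (1 / (2 * (h : ℝ))) v (cf ω m) * Real.log (Ideal.absNorm v.asIdeal))| ≤
        (T : ℝ) ^ (1 / 2 + 1 / (2 * (h : ℝ)) + δ)) → P m) →
    (exceptions b L r N' f P : ℝ) ≤ 1 / (y : ℝ) ^ A * ∏ i, ((L i).choose (r i) : ℝ) := by
  have hD : 1 ≤ D := by
    obtain ⟨k, _⟩ := (full_exp e hd hE).full (fun _ => 0) (by simp; omega)
    have := k.2
    omega
  have hh0 : (2 : ℝ) ≤ h := by exact_mod_cast hh
  obtain ⟨η, hηd⟩ : ∃ η : ℝ, η = 1 / (2 * (h : ℝ)) := ⟨_, rfl⟩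
  have hη : (0 : ℝ) ≤ η := by rw [hηd]; positivity
  have hη1 : η ≤ 1 / 2 := by
    rw [hηd]
    apply one_div_le_one_div_of_le (by norm_num)
    linarith
  obtain ⟨C, hC0, hC⟩ := mp_le e G hh hev hd hE
  rw [← hηd] at hC
  obtain ⟨n₁, hn₁⟩ := sum_pow K
  obtain ⟨c, hc, y₀, hgen⟩ := genV b g D ω hω hb (Nat.mul_pos hD hg) (δ / 2) (by positivity) A B
    (univ : Finset Unit) (fun _ p _ u => Gp e G η p u - mp e G η p) (fun _ => 0) η hη
    (fun _ _ => ⟨2, by norm_num, fun p hp => by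
      have hp0 : (0 : ℝ) < p := by exact_mod_cast hp.out.pos
      constructor
      · intro u
        have e1 := Gp_le e G η p u
        have e2 := mp_le' e G η p
        refine (abs_sub _ _).trans ?_
        linarith
      · rw [abs_zero]
        positivity⟩)
    (fun _ _ => ⟨0, le_rfl, fun p hp => by
      have hp0 : (0 : ℝ) < p := by exact_mod_cast hp.out.pos
      have e1 : (∑ u : Fin D → ZMod p, (Gp e G η p u - mp e G η p)) / (p : ℝ) ^ D = 0 := by
        rw [sum_sub_distrib, sum_const, nsmul_eq_mul, card_box]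
        unfold mp
        field_simp
        ring
      rw [e1]
      simp⟩)
  obtain ⟨T₀, hT₀⟩ := Filter.eventually_atTop.1 (ev_fin (C * (n₁ * 2) + Module.finrank ℤ (𝓞 K)) (by positivity) η δ hδ)
  refine ⟨c, hc, y₀ + T₀ + 1, fun L r y hrL hy N' hN' f hf W hW hW1 P hP => ?_⟩
  refine hgen L r y hrL (by omega) N' hN' f hf W hW hW1 P fun m hm => ?_
  refine hP m fun T hyT hTr w hw => ?_
  have h0 := hm T hyT hTr w hw () (mem_univ _) (fun v => Fv e G η v (cf ω m) - mpn e G η (Ideal.absNorm v.asIdeal)) (fun p _ φ => by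
    rw [Fv_hv, absNorm_hv, mpn_eq])
  rw [← hηd]
  have hT1 : (1 : ℝ) ≤ T := by exact_mod_cast (by omega : 1 ≤ T)
  have hT0 : (0 : ℝ) < T := by linarith
  have hlog : 0 ≤ Real.log T := Real.log_nonneg hT1
  have hnorm : ∀ v ∈ VT K T, (Ideal.absNorm v.asIdeal : ℝ) ≤ T ∧ (1 : ℝ) ≤ Ideal.absNorm v.asIdeal := by
    intro v hv1
    rw [mem_VT] at hv1
    refine ⟨by exact_mod_cast hv1, ?_⟩
    have : Ideal.absNorm v.asIdeal ≠ 0 := by
      rw [Ne, Ideal.absNorm_eq_zero_iff]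
      exact v.ne_bot
    exact_mod_cast Nat.one_le_iff_ne_zero.2 this
  have hlogv : ∀ v ∈ VT K T, |Real.log (Ideal.absNorm v.asIdeal)| ≤ Real.log T := by
    intro v hv1
    obtain ⟨e1, e2⟩ := hnorm v hv1
    rw [abs_of_nonneg (Real.log_nonneg e2)]
    exact Real.log_le_log (by linarith) e1
  have hsplit := sum_filter_add_sum_filter_not (VT K T) (fun v => (Ideal.absNorm v.asIdeal).Prime)
    (fun v => w v * (Fv e G η v (cf ω m) * Real.log (Ideal.absNorm v.asIdeal)))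
  rw [← hsplit]
  have hdeg1 : ∑ v ∈ (VT K T).filter (fun v => (Ideal.absNorm v.asIdeal).Prime), w v * (Fv e G η v (cf ω m) * Real.log (Ideal.absNorm v.asIdeal)) =
      ∑ v ∈ (VT K T).filter (fun v => (Ideal.absNorm v.asIdeal).Prime), w v * ((Fv e G η v (cf ω m) - mpn e G η (Ideal.absNorm v.asIdeal) - 0) * Real.log (Ideal.absNorm v.asIdeal)) +
      ∑ v ∈ (VT K T).filter (fun v => (Ideal.absNorm v.asIdeal).Prime), w v * (mpn e G η (Ideal.absNorm v.asIdeal) * Real.log (Ideal.absNorm v.asIdeal)) := by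
    rw [← sum_add_distrib]
    refine sum_congr rfl fun v _ => ?_
    ring
  -- the means
  have hmid : |∑ v ∈ (VT K T).filter (fun v => (Ideal.absNorm v.asIdeal).Prime), w v * (mpn e G η (Ideal.absNorm v.asIdeal) * Real.log (Ideal.absNorm v.asIdeal))| ≤
      (C * (n₁ * 2)) * ((T : ℝ) ^ (1 / 2 + η) * Real.log T) := by
    refine (abs_sum_le_sum_abs _ _).trans ((sum_le_sum (g := fun v => (C * Real.log T) * (Ideal.absNorm v.asIdeal : ℝ) ^ (-(1 / 2 - η))) fun v hv1 => ?_).trans ?_)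
    · rw [mem_filter] at hv1
      rw [abs_mul, abs_mul]
      have hF : Fact (Ideal.absNorm v.asIdeal).Prime := ⟨hv1.2⟩
      have e1 := hC (Ideal.absNorm v.asIdeal)
      rw [← mpn_eq] at e1
      have e2 := hlogv v hv1.1
      calc |w v| * (|mpn e G η (Ideal.absNorm v.asIdeal)| * |Real.log (Ideal.absNorm v.asIdeal)|) ≤
          1 * ((C * (Ideal.absNorm v.asIdeal : ℝ) ^ (-(1 / 2 - η))) * Real.log T) := by
            apply mul_le_mul (hW1 T w hw v) _ (by positivity) zero_le_one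
            exact mul_le_mul e1 e2 (abs_nonneg _) (by positivity)
        _ = _ := by ring
    · rw [← mul_sum]
      have e1 := hn₁ (1 / 2 - η) (by linarith) (by linarith) T
      have e2 : 1 - (1 / 2 - η) = 1 / 2 + η := by ring
      rw [e2] at e1
      calc (C * Real.log T) * ∑ v ∈ (VT K T).filter (fun v => (Ideal.absNorm v.asIdeal).Prime), (Ideal.absNorm v.asIdeal : ℝ) ^ (-(1 / 2 - η)) ≤
          (C * Real.log T) * (n₁ * (2 * (T : ℝ) ^ (1 / 2 + η))) := mul_le_mul_of_nonneg_left e1 (by positivity)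
        _ = _ := by ring
  -- the prime ideals of higher degree
  have hhigh : |∑ v ∈ (VT K T).filter (fun v => ¬ (Ideal.absNorm v.asIdeal).Prime), w v * (Fv e G η v (cf ω m) * Real.log (Ideal.absNorm v.asIdeal))| ≤
      (Module.finrank ℤ (𝓞 K) : ℝ) * ((T : ℝ) ^ (1 / 2 + η) * Real.log T) := by
    refine (abs_sum_le_sum_abs _ _).trans ((sum_le_sum (g := fun _ => (T : ℝ) ^ η * Real.log T) fun v hv1 => ?_).trans ?_)
    · rw [mem_filter] at hv1
      obtain ⟨hnT, hn1⟩ := hnorm v hv1.1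
      have e2 := Fv_le e G η v (cf ω m)
      have e3 : (Ideal.absNorm v.asIdeal : ℝ) ^ η ≤ (T : ℝ) ^ η := Real.rpow_le_rpow (by linarith) hnT hη
      have e6 := hlogv v hv1.1
      rw [abs_mul, abs_mul]
      calc |w v| * (|Fv e G η v (cf ω m)| * |Real.log (Ideal.absNorm v.asIdeal)|) ≤ 1 * ((T : ℝ) ^ η * Real.log T) := by
            apply mul_le_mul (hW1 T w hw v) _ (by positivity) zero_le_one
            exact mul_le_mul (e2.trans e3) e6 (abs_nonneg _) (by positivity)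
        _ = _ := one_mul _
    · rw [sum_const, nsmul_eq_mul]
      have e1 := card_high K T
      have e2 : (((VT K T).filter (fun v => ¬ (Ideal.absNorm v.asIdeal).Prime)).card : ℝ) ≤ (Module.finrank ℤ (𝓞 K) : ℝ) * Real.sqrt T := by
        have e3 : (((VT K T).filter (fun v => ¬ (Ideal.absNorm v.asIdeal).Prime)).card : ℝ) ≤ (Module.finrank ℤ (𝓞 K) : ℝ) * (Nat.sqrt T : ℝ) := by exact_mod_cast e1
        refine e3.trans ?_
        apply mul_le_mul_of_nonneg_left _ (Nat.cast_nonneg _)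
        exact Real.nat_sqrt_le_real_sqrt
      have e4 : (T : ℝ) ^ (1 / 2 + η) = Real.sqrt T * (T : ℝ) ^ η := by
        rw [Real.sqrt_eq_rpow, ← Real.rpow_add hT0]
      calc (((VT K T).filter (fun v => ¬ (Ideal.absNorm v.asIdeal).Prime)).card : ℝ) * ((T : ℝ) ^ η * Real.log T) ≤
          ((Module.finrank ℤ (𝓞 K) : ℝ) * Real.sqrt T) * ((T : ℝ) ^ η * Real.log T) := mul_le_mul_of_nonneg_right e2 (by positivity)
        _ = _ := by
          rw [e4]
          ring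
  rw [hdeg1]
  have hfin := hT₀ T (by omega)
  have habs := abs_add_le (∑ v ∈ (VT K T).filter (fun v => (Ideal.absNorm v.asIdeal).Prime), w v * ((Fv e G η v (cf ω m) - mpn e G η (Ideal.absNorm v.asIdeal) - 0) * Real.log (Ideal.absNorm v.asIdeal)))
    (∑ v ∈ (VT K T).filter (fun v => (Ideal.absNorm v.asIdeal).Prime), w v * (mpn e G η (Ideal.absNorm v.asIdeal) * Real.log (Ideal.absNorm v.asIdeal)))
  have habs2 := abs_add_le (∑ v ∈ (VT K T).filter (fun v => (Ideal.absNorm v.asIdeal).Prime), w v * ((Fv e G η v (cf ω m) - mpn e G η (Ideal.absNorm v.asIdeal) - 0) * Real.log (Ideal.absNorm v.asIdeal)) +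
    ∑ v ∈ (VT K T).filter (fun v => (Ideal.absNorm v.asIdeal).Prime), w v * (mpn e G η (Ideal.absNorm v.asIdeal) * Real.log (Ideal.absNorm v.asIdeal)))
    (∑ v ∈ (VT K T).filter (fun v => ¬ (Ideal.absNorm v.asIdeal).Prime), w v * (Fv e G η v (cf ω m) * Real.log (Ideal.absNorm v.asIdeal)))
  rw [add_mul (C * (n₁ * 2))] at hfin
  linarith

end

end Pool.Agent.N842.TX
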