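import Pool.Agent.N842.TX.Law
import Pool.Agent.N842.TX.Cnt

/-!
# The Tauberian generalized Nagao conjecture for almost all pencils of plane curves
-/

set_option autoImplicit false

namespace Pool.Agent.N842.TX

open Finset NumberField IsDedekindDomain Filter Topology
open Pool.Agent.N842.HS (Res rho card_Res VT mem_VT cf)
open Pool.Agent.Y57.FD (digit exceptions)

section
variable {K : Type} [Field K] [NumberField K] {D d E : ℕ} (e : Fin D ≃ Exp3 d E) (G : Polynomial ℤ)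

open Classical in
/-- the averages, truncated -/
noncomputable def At (η : ℝ) (v : HeightOneSpectrum (𝓞 K)) (c : Fin D → 𝓞 K) : ℝ := 1 - ni G (Res v) + Fv e G η v c

lemma ev_lim (s ε : ℝ) (hs : s < 1) (hε : 0 < ε) : ∀ᶠ T : ℕ in atTop, (T : ℝ) ^ s / T ≤ ε := by
  have h1 : Tendsto (fun x : ℝ => x ^ (-(1 - s))) atTop (𝓝 0) := tendsto_rpow_neg_atTop (by linarith)
  have h2 := (h1.comp (tendsto_natCast_atTop_atTop (R := ℝ))).eventually (eventually_le_nhds hε)
  filter_upwards [h2, eventually_ge_atTop 1] with T hT hT1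
  have hT0 : (0 : ℝ) < T := by exact_mod_cast hT1
  simp only [Function.comp] at hT
  rw [div_eq_mul_inv, ← Real.rpow_neg_one, ← Real.rpow_add hT0]
  refine le_trans (le_of_eq ?_) hT
  congr 1
  ring

/-- **The law with the limits.** -/
theorem law2 (hG : G.Monic) {h : ℕ} (hh : 2 ≤ h) (hev : Even h) (hd : h ≤ d) (hE : h ≤ E + 1)
    (b g : ℕ) (ω : Fin g → 𝓞 K) (hω : (1 : 𝓞 K) ∈ Submodule.span ℤ (Set.range ω)) (hb : 2 ≤ b) (δ ε : ℝ) (hδ : 0 < δ) (hε : 0 < ε) (A B : ℕ) :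
    ∃ c : ℝ, 0 < c ∧ ∃ y₀ : ℕ, ∀ (L r : Fin (D * g) → ℕ) (y : ℕ), (∀ i, 2 * r i ≤ L i) → y₀ ≤ y →
    ∀ N' : Fin (D * g) → ℕ, (∀ i, N' i < b ^ L i) →
    ∀ f : Fin (D * g) → ℕ → ℕ, (∀ i j, f i j < b ∧ f i j ≠ digit b j (N' i)) →
    ∀ W : ℕ → Set (HeightOneSpectrum (𝓞 K) → ℝ), (∀ T, (W T).Finite ∧ (W T).ncard ≤ T ^ B) → (∀ T, ∀ w ∈ W T, ∀ v, |w v| ≤ 1) →
    ∀ P : (Fin (D * g) → ℕ) → Prop,
    (∀ m : Fin (D * g) → ℕ, (∀ T : ℕ, y ≤ T → (∀ i, (T : ℝ) ≤ Real.exp (c * r i)) →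
      (∀ w ∈ W T, |∑ v ∈ VT K T, w v * (Fv e G (1 / (2 * (h : ℝ))) v (cf ω m) * Real.log (Ideal.absNorm v.asIdeal))| ≤
        (T : ℝ) ^ (1 / 2 + 1 / (2 * (h : ℝ)) + δ)) ∧
      |(∑ v ∈ VT K T, At e G (1 / (2 * (h : ℝ))) v (cf ω m) * Real.log (Ideal.absNorm v.asIdeal)) / T + ((nf K G : ℝ) - 1)| ≤ ε) → P m) →
    (exceptions b L r N' f P : ℝ) ≤ 1 / (y : ℝ) ^ A * ∏ i, ((L i).choose (r i) : ℝ) := by
  classical
  have hg : 1 ≤ g := by
    by_contra hcon
    have hg0 : g = 0 := by omega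
    subst hg0
    rw [Set.range_eq_empty, Submodule.span_empty, Submodule.mem_bot] at hω
    exact one_ne_zero hω
  have hh0 : (2 : ℝ) ≤ h := by exact_mod_cast hh
  obtain ⟨η, hηd⟩ : ∃ η : ℝ, η = 1 / (2 * (h : ℝ)) := ⟨_, rfl⟩
  have hη : (0 : ℝ) ≤ η := by rw [hηd]; positivity
  have hη1 : η ≤ 1 / 4 := by
    rw [hηd]
    apply one_div_le_one_div_of_le (by norm_num)
    linarith
  obtain ⟨δ', hδ'⟩ : ∃ δ' : ℝ, δ' = min δ (1 / 8) := ⟨_, rfl⟩
  have hδ0 : 0 < δ' := by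
    rw [hδ']
    exact lt_min hδ (by norm_num)
  have hδ1 : δ' ≤ δ := by rw [hδ']; exact min_le_left _ _
  have hδ2 : δ' ≤ 1 / 8 := by rw [hδ']; exact min_le_right _ _
  obtain ⟨c, hc, y₀, hlaw⟩ := law (K := K) e G hh hev hd hE b g ω hω hg hb δ' hδ0 A (B + 1)
  rw [← hηd] at hlaw
  obtain ⟨T₁, hT₁⟩ := eventually_atTop.1 (ev_lim (1 / 2 + η + δ') (ε / 3) (by linarith) (by positivity))
  obtain ⟨T₂, hT₂⟩ := eventually_atTop.1 ((Metric.tendsto_nhds.1 (pit_tendsto K)) (ε / 3) (by positivity))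
  obtain ⟨T₃, hT₃⟩ := eventually_atTop.1 ((Metric.tendsto_nhds.1 (roots_tendsto K G hG)) (ε / 3) (by positivity))
  refine ⟨c, hc, y₀ + T₁ + T₂ + T₃ + 2, fun L r y hrL hy N' hN' f hf W hW hW1 P hP => ?_⟩
  refine hlaw L r y hrL (by omega) N' hN' f hf (fun T => if 2 ≤ T then insert (fun _ => 1) (W T) else ∅) (fun T => ?_) (fun T w hw v => ?_) P fun m hm => ?_
  · beta_reduce
    split_ifs with hT
    · refine ⟨(hW T).1.insert _, ?_⟩
      have h1 := Set.ncard_insert_le (fun _ : HeightOneSpectrum (𝓞 K) => (1 : ℝ)) (W T)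
      have h2 := (hW T).2
      have h3 : 1 ≤ T ^ B := Nat.one_le_pow _ _ (by omega)
      have h4 : T ^ (B + 1) = T ^ B * T := pow_succ _ _
      nlinarith
    · rw [Set.ncard_empty]
      exact ⟨Set.finite_empty, Nat.zero_le _⟩
  · beta_reduce at hw
    split_ifs at hw with hT
    · rcases hw with rfl | hw
      · rw [abs_one]
      · exact hW1 T w hw v
    · exact absurd hw (Set.notMem_empty _)
  · rw [← hηd] at hP
    refine hP m fun T hyT hTr => ?_
    have hT2 : 2 ≤ T := by omega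
    have hT1 : (1 : ℝ) ≤ T := by exact_mod_cast (by omega : 1 ≤ T)
    have hT0 : (0 : ℝ) < T := by linarith
    have hm' := hm T hyT hTr
    rw [if_pos hT2] at hm'
    constructor
    · intro w hw
      refine (hm' w (Set.mem_insert_of_mem _ hw)).trans ?_
      apply Real.rpow_le_rpow_of_exponent_le hT1
      linarith
    · have h1 := hm' (fun _ => 1) (Set.mem_insert _ _)
      simp only [one_mul] at h1
      have h2 := hT₁ T (by omega)
      have h3 := hT₂ T (by omega)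
      have h4 := hT₃ T (by omega)
      rw [Real.dist_eq] at h3 h4
      have h5 : |(∑ v ∈ VT K T, Fv e G η v (cf ω m) * Real.log (Ideal.absNorm v.asIdeal)) / T| ≤ ε / 3 := by
        rw [abs_div, abs_of_pos hT0]
        refine le_trans ?_ h2
        exact div_le_div_of_nonneg_right h1 hT0.le
      have h6 : (∑ v ∈ VT K T, At e G η v (cf ω m) * Real.log (Ideal.absNorm v.asIdeal)) / T + ((nf K G : ℝ) - 1) =
          ((∑ v ∈ VT K T, Real.log (Ideal.absNorm v.asIdeal)) / T - 1) - ((∑ v ∈ VT K T, (ni G (Res v) : ℝ) * Real.log (Ideal.absNorm v.asIdeal)) / T - nf K G) +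
          (∑ v ∈ VT K T, Fv e G η v (cf ω m) * Real.log (Ideal.absNorm v.asIdeal)) / T := by
        have e1 : ∑ v ∈ VT K T, At e G η v (cf ω m) * Real.log (Ideal.absNorm v.asIdeal) = ∑ v ∈ VT K T, Real.log (Ideal.absNorm v.asIdeal) -
            ∑ v ∈ VT K T, (ni G (Res v) : ℝ) * Real.log (Ideal.absNorm v.asIdeal) + ∑ v ∈ VT K T, Fv e G η v (cf ω m) * Real.log (Ideal.absNorm v.asIdeal) := by
          rw [← sum_sub_distrib, ← sum_add_distrib]
          refine sum_congr rfl fun v _ => ?_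
          unfold At
          ring
        rw [e1]
        field_simp
        ring
      rw [h6]
      have h3' := h3.le
      have h4' := h4.le
      rw [abs_le] at h3' h4' h5 ⊢
      constructor <;> linarith

end

end Pool.Agent.N842.TX
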