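import Pool.Agent.N842.HS.Mom2

/-!
# The moments of the numbers of the points of affine hypersurfaces in linear systems spanned by monomials
-/

set_option autoImplicit false

namespace Pool.Agent.N842.TX

open Finset MvPolynomial
open Pool.Agent.Y57.FD.Mom (normal)
open Pool.Agent.N842.ST (mn mn_odd mn_even normal_zero normal_nonneg eg Mg Mg_zero Mg_N_zero Mg_succ eg_zero)
open Pool.Agent.N842.HS (nuz one_le_sq sq_mul eg1 eg2 egj grow2 interp)

/-- a system of monomials which contains all the monomials of degree less than `h` -/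
structure Full {N D : ℕ} (e : Fin D → Fin N → ℕ) (h : ℕ) : Prop where
  inj : Function.Injective e
  full : ∀ α : Fin N → ℕ, ∑ i, α i < h → ∃ k, e k = α

section
variable {F : Type} [Field F] {N D h : ℕ} (e : Fin D → Fin N → ℕ)

/-- the values -/
def lo (u : Fin D → F) (x : Fin N → F) : F := ∑ k, u k * ∏ i, x i ^ e k i

/-- the exponents as finitely supported functions -/
noncomputable def ex (k : Fin D) : Fin N →₀ ℕ := Finsupp.equivFunOnFinite.symm (e k)

lemma ex_apply (k : Fin D) (i : Fin N) : ex e k i = e k i := rfl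

variable {e}

lemma ex_inj (he : Full e h) : Function.Injective (ex e) := by
  intro k k' hk
  apply he.inj
  funext i
  have := DFunLike.congr_fun hk i
  rwa [ex_apply, ex_apply] at this

lemma ex_surj (he : Full e h) (α : Fin N →₀ ℕ) (hα : ∑ i, α i < h) : ∃ k, ex e k = α := by
  obtain ⟨k, hk⟩ := he.full (fun i => α i) hα
  refine ⟨k, ?_⟩
  ext i
  rw [ex_apply, hk]

lemma repr1 (he : Full e h) (P : MvPolynomial (Fin N) F) (hP : P.totalDegree < h) : ∀ x : Fin N → F,
    eval x P = lo e (fun k => P.coeff (ex e k)) x := by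
  classical
  intro x
  rw [eval_eq']
  unfold lo
  have h1 : ∑ k, P.coeff (ex e k) * ∏ i, x i ^ e k i = ∑ β ∈ univ.image (ex e), P.coeff β * ∏ i, x i ^ β i := by
    rw [sum_image (fun a _ b _ h => ex_inj he h)]
    rfl
  rw [h1]
  apply sum_subset
  · intro α hα
    have h2 := le_totalDegree hα
    rw [Finsupp.sum_fintype _ _ (fun _ => rfl)] at h2
    obtain ⟨k, hk⟩ := ex_surj he α (h2.trans_lt hP)
    rw [mem_image]
    exact ⟨k, mem_univ _, hk⟩
  · intro α _ hα
    rw [notMem_support_iff.1 hα, zero_mul]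

variable (e) in
/-- the values at the points of `s` -/
def ev (s : Finset (Fin N → F)) : (Fin D → F) →+ (s → F) where
  toFun u x := lo e u x
  map_zero' := by
    funext x
    simp [lo]
  map_add' u v := by
    funext x
    simp [lo, add_mul, sum_add_distrib]

theorem ev_surj (he : Full e h) (s : Finset (Fin N → F)) (hs : s.card ≤ h) (hh : 0 < h) : Function.Surjective (ev e s) := by
  classical
  intro v
  obtain ⟨P, hP, hx⟩ := interp s (fun x => if hx : x ∈ s then v ⟨x, hx⟩ else 0) hs hh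
  refine ⟨fun k => P.coeff (ex e k), ?_⟩
  funext x
  show lo e _ x.1 = v x
  rw [← repr1 he P hP, hx x x.2, dif_pos x.2]

end

section
variable {N D h : ℕ} {e : Fin D → Fin N → ℕ}

/-- **the moments** of the sums over all points -/
theorem joint3 (he : Full e h) (hh : 0 < h) (p : ℕ) [hp : Fact p.Prime] (g : (Fin N → ZMod p) → ZMod p) (ν : ZMod p → ℝ) (r : ℕ) (hr : r ≤ h) :
    (∑ u : Fin D → ZMod p, (∑ x : Fin N → ZMod p, ν (g x + lo e u x)) ^ r) / (p : ℝ) ^ D = Mg (ZMod p) ν r (p ^ N) := by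
  classical
  have hcard : (univ : Finset (Fin N → ZMod p)).card = p ^ N := by
    rw [card_univ, Fintype.card_fun, Fintype.card_fin, ZMod.card]
  rw [← hcard, ← Pool.Agent.N842.ST.Mg_eq ν r (univ : Finset (Fin N → ZMod p))]
  have hL : ∀ u : Fin D → ZMod p, (∑ x : Fin N → ZMod p, ν (g x + lo e u x)) ^ r =
      ∑ y : Fin r → (Fin N → ZMod p), ∏ i, ν (g (y i) + lo e u (y i)) := by
    intro u
    exact Fintype.sum_pow _ _
  have hR : ∀ h : ↥(univ : Finset (Fin N → ZMod p)) → ZMod p, (∑ P, ν (h P)) ^ r =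
      ∑ y : Fin r → (Fin N → ZMod p), ∏ i, ν (h ⟨y i, mem_univ _⟩) := by
    intro h
    have e1 : ∑ P, ν (h P) = ∑ x : Fin N → ZMod p, ν (h ⟨x, mem_univ _⟩) :=
      Fintype.sum_equiv (Equiv.subtypeUnivEquiv (fun x => mem_univ x)) _ _ (fun P => rfl)
    rw [e1]
    exact Fintype.sum_pow _ _
  rw [sum_congr rfl (fun u _ => hL u), sum_congr rfl (fun h _ => hR h), sum_comm, sum_div, sum_comm, sum_div]
  refine sum_congr rfl fun y _ => ?_
  obtain ⟨s, hs⟩ : ∃ s : Finset (Fin N → ZMod p), s = univ.image y := ⟨_, rfl⟩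
  have hmem : ∀ i, y i ∈ s := by
    intro i
    rw [hs]
    exact mem_image_of_mem _ (mem_univ i)
  have hsc : s.card ≤ h := by
    rw [hs]
    refine card_image_le.trans ?_
    rw [card_univ, Fintype.card_fin]
    exact hr
  have h1 := Pool.Agent.Y57.FD.Mom.mean_hom (ev e s) (ev_surj he s hsc hh)
    (fun v => ∏ i, ν (g (y i) + v ⟨y i, hmem i⟩))
  have h2 := Pool.Agent.Y57.FD.Mom.mean_hom (Pool.Agent.N842.ST.resF (E := ZMod p) s univ (subset_univ s))
    (Pool.Agent.N842.ST.resF_surj s univ (subset_univ s)) (fun v => ∏ i, ν (v ⟨y i, hmem i⟩))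
  have h3 : ∑ v : s → ZMod p, ∏ i, ν (g (y i) + v ⟨y i, hmem i⟩) = ∑ v : s → ZMod p, ∏ i, ν (v ⟨y i, hmem i⟩) := by
    refine Fintype.sum_equiv (Equiv.addLeft (fun x : s => g (x : Fin N → ZMod p))) _ _ ?_
    intro v
    rfl
  have c1 : (Fintype.card (Fin D → ZMod p) : ℝ) = (p : ℝ) ^ D := by
    rw [Fintype.card_pi_const, ZMod.card]
    push_cast
    rfl
  rw [c1] at h1
  refine Eq.trans h1 ?_
  rw [h3, ← h2]
  rfl

variable (e) in
/-- the normalised number of the points of the affine hypersurface -/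
noncomputable def nb (p : ℕ) [Fact p.Prime] (g : (Fin N → ZMod p) → ZMod p) (u : Fin D → ZMod p) : ℝ :=
  (∑ x : Fin N → ZMod p, nuz p (g x + lo e u x)) / Real.sqrt p ^ N

/-- **the moments of the normalised numbers of points** -/
theorem mom3 (he : Full e h) (hN : 2 ≤ N) (hh : 0 < h) (r : ℕ) (hr : r ≤ h) : ∃ C : ℝ, 0 ≤ C ∧ ∀ (p : ℕ) [hp : Fact p.Prime]
    (g : (Fin N → ZMod p) → ZMod p), |(∑ u : Fin D → ZMod p, nb e p g u ^ r) / (p : ℝ) ^ D - normal r| ≤ C / Real.sqrt p := by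
  obtain ⟨C, hC0, hC⟩ := grow2 2 (by norm_num) r
  have hn0 := normal_nonneg r
  refine ⟨C + normal r * r, by positivity, fun p hp g => ?_⟩
  have hp0 : (0 : ℝ) < p := by exact_mod_cast hp.out.pos
  have hp1 : (1 : ℝ) < p := by exact_mod_cast hp.out.one_lt
  have hs1 := one_le_sq p
  have hs0 : 0 < Real.sqrt p := by linarith
  have h2 : Real.sqrt p ^ 2 = p := by rw [sq, sq_mul p]
  obtain ⟨s, hs⟩ : ∃ s : ℝ, s = Real.sqrt p ^ N := ⟨_, rfl⟩
  have hss : s ^ 2 = (p : ℝ) ^ N := by rw [hs, ← pow_mul, mul_comm, pow_mul, h2]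
  have hsp : Real.sqrt p * Real.sqrt p ≤ s := by
    rw [hs, ← sq]
    exact pow_le_pow_right₀ hs1 hN
  have hsle : Real.sqrt p ≤ s := by nlinarith
  have hspos : 0 < s := by linarith
  have hinv : 1 / (p : ℝ) ≤ 1 := (div_le_one hp0).2 hp1.le
  have hinv0 : 0 ≤ 1 / (p : ℝ) := by positivity
  have h1 := hC s (by linarith) (Real.sqrt p) hs1 hsle (1 - 1 / p) (by linarith) (by linarith)
    (Mg (ZMod p) (nuz p)) (eg (ZMod p) (nuz p)) (Mg_zero _ _) (Mg_N_zero _ _) (Mg_succ _ _) (eg_zero _ _) (eg1 p) (eg2 p)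
    (egj p) (p ^ N) (by rw [hss]; push_cast; exact le_rfl)
  have h3 : (∑ u : Fin D → ZMod p, nb e p g u ^ r) / (p : ℝ) ^ D = Mg (ZMod p) (nuz p) r (p ^ N) / s ^ r := by
    rw [← joint3 he hh p g (nuz p) r hr]
    have : ∀ u : Fin D → ZMod p, nb e p g u ^ r = (∑ x : Fin N → ZMod p, nuz p (g x + lo e u x)) ^ r / s ^ r := by
      intro u
      unfold nb
      rw [div_pow, hs]
    rw [sum_congr rfl (fun u _ => this u), ← sum_div]
    ring
  have h4 : |Mg (ZMod p) (nuz p) r (p ^ N) / s ^ r - mn r (1 - 1 / p) ((p ^ N : ℕ) : ℝ) / s ^ r| ≤ C / Real.sqrt p := by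
    rw [← sub_div, abs_div, abs_of_pos (by positivity : 0 < s ^ r), div_le_iff₀ (by positivity)]
    refine h1.trans ?_
    have e1 : Real.sqrt p / s ≤ 1 / Real.sqrt p := by
      rw [div_le_div_iff₀ hspos hs0, one_mul]
      exact hsp
    calc C * (s ^ r * (Real.sqrt p / s)) ≤ C * (s ^ r * (1 / Real.sqrt p)) := by
          apply mul_le_mul_of_nonneg_left _ hC0
          exact mul_le_mul_of_nonneg_left e1 (by positivity)
      _ = C / Real.sqrt p * s ^ r := by ring
  have h5 : |mn r (1 - 1 / p) ((p ^ N : ℕ) : ℝ) / s ^ r - normal r| ≤ normal r * r / Real.sqrt p := by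
    rcases Nat.even_or_odd r with hm | hm
    · obtain ⟨i, hi⟩ := hm
      have hi2 : r / 2 = i := by omega
      have e1 : mn r (1 - 1 / p) ((p ^ N : ℕ) : ℝ) / s ^ r = normal r * (1 - 1 / p) ^ i := by
        unfold mn
        rw [hi2]
        push_cast
        rw [← hss, mul_pow, ← pow_mul, hi, ← two_mul]
        field_simp
      have e2 := one_add_mul_le_pow (a := -(1 / (p : ℝ))) (by linarith) i
      have e3 : (1 - 1 / (p : ℝ)) ^ i ≤ 1 := pow_le_one₀ (by linarith) (by linarith)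
      rw [← sub_eq_add_neg] at e2
      rw [e1, abs_sub_comm, abs_of_nonneg (by nlinarith)]
      have e4 : 1 / (p : ℝ) ≤ 1 / Real.sqrt p := by
        apply one_div_le_one_div_of_le hs0
        nlinarith
      have e5 : (i : ℝ) ≤ r := by exact_mod_cast (by omega : i ≤ r)
      calc normal r - normal r * (1 - 1 / (p : ℝ)) ^ i = normal r * (1 - (1 - 1 / (p : ℝ)) ^ i) := by ring
        _ ≤ normal r * (r * (1 / Real.sqrt p)) := by
            apply mul_le_mul_of_nonneg_left _ hn0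
            have : (i : ℝ) * (1 / p) ≤ r * (1 / Real.sqrt p) := mul_le_mul e5 e4 hinv0 (by positivity)
            linarith
        _ = _ := by ring
    · have e1 : normal r = 0 := by
        unfold Pool.Agent.Y57.FD.Mom.normal
        rw [if_neg (Nat.not_even_iff_odd.2 hm)]
      unfold mn
      rw [e1]
      simp
  rw [h3]
  have h6 := abs_add_le (Mg (ZMod p) (nuz p) r (p ^ N) / s ^ r - mn r (1 - 1 / p) ((p ^ N : ℕ) : ℝ) / s ^ r)
    (mn r (1 - 1 / p) ((p ^ N : ℕ) : ℝ) / s ^ r - normal r)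
  rw [sub_add_sub_cancel] at h6
  have h7 : (C + normal r * r) / Real.sqrt p = C / Real.sqrt p + normal r * r / Real.sqrt p := by ring
  rw [h7]
  linarith

open Classical in
/-- the truncation -/
noncomputable def tc (B x : ℝ) : ℝ := if |x| ≤ B then x else 0

lemma tc_le {B : ℝ} (hB : 0 ≤ B) (x : ℝ) : |tc B x| ≤ B := by
  unfold tc
  split_ifs with h
  · exact h
  · rw [abs_zero]
    exact hB

lemma tc_neg (B x : ℝ) : tc B (-x) = - tc B x := by
  unfold tc
  rw [abs_neg]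
  split_ifs
  · rfl
  · rw [neg_zero]

lemma tc_sub {B : ℝ} (hB : 0 < B) (x : ℝ) {r : ℕ} (hr : Even r) (hr1 : 1 ≤ r) : |tc B x - x| ≤ x ^ r / B ^ (r - 1) := by
  have hx : 0 ≤ x ^ r := hr.pow_nonneg x
  unfold tc
  split_ifs with h
  · rw [sub_self, abs_zero]
    positivity
  · rw [zero_sub, abs_neg, le_div_iff₀ (by positivity)]
    rw [not_le] at h
    have h1 : x ^ r = |x| * |x| ^ (r - 1) := by
      rw [← pow_succ', Nat.sub_add_cancel hr1, hr.pow_abs]
    rw [h1]
    exact mul_le_mul_of_nonneg_left (pow_le_pow_left₀ hB.le h.le _) (abs_nonneg _)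

/-- the means of the truncated numbers -/
theorem mean_tc (he : Full e h) (hN : 2 ≤ N) (hh : 2 ≤ h) (hev : Even h) : ∃ C : ℝ, 0 ≤ C ∧ ∀ (p : ℕ) [hp : Fact p.Prime]
    (g : (Fin N → ZMod p) → ZMod p), |(∑ u : Fin D → ZMod p, tc ((p : ℝ) ^ (1 / (2 * (h : ℝ)))) (nb e p g u)) / (p : ℝ) ^ D| ≤
      C * (p : ℝ) ^ (-(1 / 2 - 1 / (2 * (h : ℝ)))) := by
  obtain ⟨C1, hC1, h1⟩ := mom3 he hN (by omega) 1 (by omega)
  obtain ⟨C2, hC2, h2⟩ := mom3 he hN (by omega) h le_rfl
  refine ⟨C1 + (normal h + C2), by have := normal_nonneg h; positivity, fun p hp g => ?_⟩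
  have hp1 : (1 : ℝ) < p := by exact_mod_cast hp.out.one_lt
  have hp0 : (0 : ℝ) < p := by linarith
  have hs1 := one_le_sq p
  have hh0 : (2 : ℝ) ≤ h := by exact_mod_cast hh
  obtain ⟨B, hB⟩ : ∃ B : ℝ, B = (p : ℝ) ^ (1 / (2 * (h : ℝ))) := ⟨_, rfl⟩
  have hB0 : 0 < B := by rw [hB]; positivity
  have hpD : (0 : ℝ) < (p : ℝ) ^ D := by positivity
  have e1 := h1 p g
  have e2 := h2 p g
  simp only [pow_one] at e1
  have hn1 : normal 1 = 0 := by
    unfold Pool.Agent.Y57.FD.Mom.normal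
    simp
  rw [hn1, sub_zero] at e1
  have e3 : (∑ u : Fin D → ZMod p, nb e p g u ^ h) / (p : ℝ) ^ D ≤ normal h + C2 := by
    have : C2 / Real.sqrt p ≤ C2 := div_le_self hC2 hs1
    rw [abs_le] at e2
    linarith
  have e4 : |(∑ u : Fin D → ZMod p, tc B (nb e p g u)) / (p : ℝ) ^ D - (∑ u : Fin D → ZMod p, nb e p g u) / (p : ℝ) ^ D| ≤
      (normal h + C2) / B ^ (h - 1) := by
    rw [← sub_div, ← sum_sub_distrib, abs_div, abs_of_pos hpD]
    have e5 : |∑ u : Fin D → ZMod p, (tc B (nb e p g u) - nb e p g u)| ≤ (∑ u : Fin D → ZMod p, nb e p g u ^ h) / B ^ (h - 1) := by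
      rw [sum_div]
      refine (abs_sum_le_sum_abs _ _).trans (sum_le_sum fun u _ => ?_)
      exact tc_sub hB0 _ hev (by omega)
    rw [div_le_iff₀ hpD] at e3 ⊢
    refine e5.trans ?_
    rw [div_le_iff₀ (by positivity)]
    refine e3.trans (le_of_eq ?_)
    field_simp
  have e6 : (p : ℝ) ^ (-(1 / 2 - 1 / (2 * (h : ℝ)))) = 1 / B ^ (h - 1) := by
    rw [hB, ← Real.rpow_natCast, ← Real.rpow_mul hp0.le, Real.rpow_neg hp0.le, one_div ((p : ℝ) ^ _)]
    congr 2
    rw [Nat.cast_sub (by omega), Nat.cast_one]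
    field_simp
  have e7 : C1 / Real.sqrt p ≤ C1 * (p : ℝ) ^ (-(1 / 2 - 1 / (2 * (h : ℝ)))) := by
    rw [div_eq_mul_inv]
    apply mul_le_mul_of_nonneg_left _ hC1
    rw [Real.sqrt_eq_rpow, ← Real.rpow_neg hp0.le]
    apply Real.rpow_le_rpow_of_exponent_le hp1.le
    have : 0 ≤ 1 / (2 * (h : ℝ)) := by positivity
    linarith
  rw [← hB]
  have e8 := abs_add_le ((∑ u : Fin D → ZMod p, tc B (nb e p g u)) / (p : ℝ) ^ D - (∑ u : Fin D → ZMod p, nb e p g u) / (p : ℝ) ^ D)
    ((∑ u : Fin D → ZMod p, nb e p g u) / (p : ℝ) ^ D)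
  rw [sub_add_cancel] at e8
  have e9 : (normal h + C2) / B ^ (h - 1) = (normal h + C2) * (p : ℝ) ^ (-(1 / 2 - 1 / (2 * (h : ℝ)))) := by
    rw [e6]
    ring
  rw [e9] at e4
  rw [add_mul]
  linarith

end

end Pool.Agent.N842.TX
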